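import Mathlib

/-!
# Free groups of generic matrices in `SL₂`

For algebraically independent real parameters the matrices `U p * L q * U r` freely generate a free
group in `SL₂(ℝ)` all of whose nontrivial elements have trace different from `2`.
-/

set_option autoImplicit false

open Matrix

namespace Pool.Agent.U237.FreeSL

section basic

variable {R : Type*} [CommRing R]

theorem mul_entry (g h : SpecialLinearGroup (Fin 2) R) (i j : Fin 2) :
    (g * h : SpecialLinearGroup (Fin 2) R).1 i j = g.1 i 0 * h.1 0 j + g.1 i 1 * h.1 1 j := by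
  have h1 : (g * h : SpecialLinearGroup (Fin 2) R).1 = g.1 * h.1 := rfl
  rw [h1, Matrix.mul_apply, Fin.sum_univ_two]

theorem det_entry (g : SpecialLinearGroup (Fin 2) R) :
    g.1 0 0 * g.1 1 1 - g.1 0 1 * g.1 1 0 = 1 := by
  have := g.2
  rwa [Matrix.det_fin_two] at this

theorem ext4 {g h : SpecialLinearGroup (Fin 2) R} (h00 : g.1 0 0 = h.1 0 0)
    (h01 : g.1 0 1 = h.1 0 1) (h10 : g.1 1 0 = h.1 1 0) (h11 : g.1 1 1 = h.1 1 1) : g = h := by
  apply Subtype.ext
  ext i j
  fin_cases i <;> fin_cases j <;> assumption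

theorem inv_entry (g : SpecialLinearGroup (Fin 2) R) :
    (g⁻¹).1 0 0 = g.1 1 1 ∧ (g⁻¹).1 0 1 = - g.1 0 1 ∧ (g⁻¹).1 1 0 = - g.1 1 0 ∧
      (g⁻¹).1 1 1 = g.1 0 0 := by
  have h0 : (g⁻¹).1 = adjugate g.1 := rfl
  have h : (g⁻¹).1 = !![g.1 1 1, - g.1 0 1; - g.1 1 0, g.1 0 0] := by
    rw [h0, Matrix.adjugate_fin_two]
  exact ⟨congrFun (congrFun h 0) 0, congrFun (congrFun h 0) 1, congrFun (congrFun h 1) 0,
    congrFun (congrFun h 1) 1⟩

/-- The matrix `U p * L q * U r`, `U` upper and `L` lower unipotent. -/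
def M (p q r : R) : SpecialLinearGroup (Fin 2) R :=
  ⟨!![1 + p * q, p + r + p * q * r; q, 1 + q * r], by
    rw [Matrix.det_fin_two_of]; ring⟩

/-- Upper unipotent matrices. -/
def U (p : R) : SpecialLinearGroup (Fin 2) R :=
  ⟨!![1, p; 0, 1], by rw [Matrix.det_fin_two_of]; ring⟩

/-- The product of an upper unipotent and a lower unipotent matrix. -/
def UL (p q : R) : SpecialLinearGroup (Fin 2) R :=
  ⟨!![1 + p * q, p; q, 1], by rw [Matrix.det_fin_two_of]; ring⟩

theorem M_00 (p q r : R) : (M p q r).1 0 0 = 1 + p * q := rfl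
theorem M_01 (p q r : R) : (M p q r).1 0 1 = p + r + p * q * r := rfl
theorem M_10 (p q r : R) : (M p q r).1 1 0 = q := rfl
theorem M_11 (p q r : R) : (M p q r).1 1 1 = 1 + q * r := rfl
theorem U_00 (p : R) : (U p).1 0 0 = 1 := rfl
theorem U_01 (p : R) : (U p).1 0 1 = p := rfl
theorem U_10 (p : R) : (U p).1 1 0 = 0 := rfl
theorem U_11 (p : R) : (U p).1 1 1 = 1 := rfl
theorem UL_00 (p q : R) : (UL p q).1 0 0 = 1 + p * q := rfl
theorem UL_01 (p q : R) : (UL p q).1 0 1 = p := rfl
theorem UL_10 (p q : R) : (UL p q).1 1 0 = q := rfl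
theorem UL_11 (p q : R) : (UL p q).1 1 1 = 1 := rfl

/-- Moving the upper unipotent factors through a product. -/
theorem U_mul_M (b p q r : R) : U b * M p q r = UL (b + p) q * U r := by
  apply ext4 <;> simp only [mul_entry, M_00, M_01, M_10, M_11, U_00, U_01, U_10, U_11, UL_00,
    UL_01, UL_10, UL_11] <;> ring

theorem M_inv (p q r : R) : (M p q r)⁻¹ = M (-r) (-q) (-p) := by
  obtain ⟨h1, h2, h3, h4⟩ := inv_entry (M p q r)
  apply ext4 <;> simp only [h1, h2, h3, h4, M_00, M_01, M_10, M_11] <;> ring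

theorem map_entry {S : Type*} [CommRing S] (φ : R →+* S) (g : SpecialLinearGroup (Fin 2) R)
    (i j : Fin 2) : (SpecialLinearGroup.map φ g).1 i j = φ (g.1 i j) := rfl

theorem map_M {S : Type*} [CommRing S] (φ : R →+* S) (p q r : R) :
    SpecialLinearGroup.map φ (M p q r) = M (φ p) (φ q) (φ r) := by
  apply ext4 <;> simp only [map_entry, M_00, M_01, M_10, M_11, map_add, map_mul, map_one]

/-- The trace of an element of `SL₂`. -/
def tr (g : SpecialLinearGroup (Fin 2) R) : R := g.1 0 0 + g.1 1 1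

theorem tr_conj (g h : SpecialLinearGroup (Fin 2) R) :
    tr (h * g * h⁻¹) = tr g := by
  have hd := det_entry h
  obtain ⟨h1, h2, h3, h4⟩ := inv_entry h
  simp only [tr, mul_entry, h1, h2, h3, h4]
  linear_combination (g.1 0 0 + g.1 1 1) * hd

theorem tr_conj' (g h : SpecialLinearGroup (Fin 2) R) :
    tr (h⁻¹ * g * h) = tr g := by
  have := tr_conj g h⁻¹
  rwa [inv_inv] at this

theorem tr_map {S : Type*} [CommRing S] (φ : R →+* S)
    (g : SpecialLinearGroup (Fin 2) R) :
    tr (SpecialLinearGroup.map φ g) = φ (tr g) := by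
  simp only [tr, map_entry, map_add]

end basic

/-- An element of `SL₂` over a field fixing a nonzero vector has trace `2`. -/
theorem tr_of_fixed {K : Type*} [Field K] (g : SpecialLinearGroup (Fin 2) K) (v : Fin 2 → K)
    (hv : v ≠ 0) (h : g.1 *ᵥ v = v) : tr g = 2 := by
  have hd := det_entry g
  have h0 : g.1 0 0 * v 0 + g.1 0 1 * v 1 = v 0 := by
    have := congrFun h 0
    simpa [Matrix.mulVec, dotProduct, Fin.sum_univ_two] using this
  have h1 : g.1 1 0 * v 0 + g.1 1 1 * v 1 = v 1 := by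
    have := congrFun h 1
    simpa [Matrix.mulVec, dotProduct, Fin.sum_univ_two] using this
  by_cases hv0 : v 0 = 0
  · have hv1 : v 1 ≠ 0 := by
      intro h'
      apply hv
      ext i
      fin_cases i <;> simp [hv0, h']
    have e1 : g.1 0 1 = 0 := by
      have : g.1 0 1 * v 1 = 0 := by rw [hv0] at h0; simpa using h0
      exact (mul_eq_zero.1 this).resolve_right hv1
    have e2 : g.1 1 1 = 1 := by
      have : (g.1 1 1 - 1) * v 1 = 0 := by rw [hv0] at h1; linear_combination h1
      exact sub_eq_zero.1 ((mul_eq_zero.1 this).resolve_right hv1)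
    have e3 : g.1 0 0 = 1 := by rw [e1, e2] at hd; linear_combination hd
    simp only [tr, e2, e3]
    norm_num
  · have key : (tr g - 2) * v 0 = 0 := by
      simp only [tr]
      linear_combination v 0 * hd - (g.1 1 1 - 1) * h0 + g.1 0 1 * h1
    exact sub_eq_zero.1 ((mul_eq_zero.1 key).resolve_right hv0)


section growth

theorem step_aux {x z s t : ℚ} (hs : 4 ≤ |s|) (ht : 4 ≤ |t|) (hx : 1 ≤ |x|) (hz : 3 * |z| ≤ |x|) :
    9 ≤ |x + s * (t * x + z)| ∧ 3 * |t * x + z| ≤ |x + s * (t * x + z)| := by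
  have h1 : |t * x| ≤ |t * x + z| + |z| := by
    have := abs_sub (t * x + z) z
    rwa [add_sub_cancel_right] at this
  have h2 : |s * (t * x + z)| ≤ |x + s * (t * x + z)| + |x| := by
    have := abs_sub (x + s * (t * x + z)) x
    rwa [add_sub_cancel_left] at this
  rw [abs_mul] at h1 h2
  have h3 : 4 * |x| ≤ |t| * |x| := mul_le_mul_of_nonneg_right ht (abs_nonneg _)
  have h4 : 4 * |t * x + z| ≤ |s| * |t * x + z| := mul_le_mul_of_nonneg_right hs (abs_nonneg _)
  have h5 := abs_nonneg x
  have h6 := abs_nonneg z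
  constructor <;> linarith

theorem growth_left (l : List (ℚ × ℚ)) (h : ∀ x ∈ l, 4 ≤ |x.1| ∧ 4 ≤ |x.2|) :
    1 ≤ |((l.map fun x => UL x.1 x.2).prod).1 0 0| ∧
    3 * |((l.map fun x => UL x.1 x.2).prod).1 1 0| ≤ |((l.map fun x => UL x.1 x.2).prod).1 0 0| ∧
    (l ≠ [] → 9 ≤ |((l.map fun x => UL x.1 x.2).prod).1 0 0|) := by
  induction l with
  | nil =>
    have h0 : ((1 : SpecialLinearGroup (Fin 2) ℚ)).1 0 0 = 1 := rfl
    have h1 : ((1 : SpecialLinearGroup (Fin 2) ℚ)).1 1 0 = 0 := rfl
    simp only [List.map_nil, List.prod_nil, h0, h1]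
    norm_num
  | cons a l ih =>
    obtain ⟨i1, i2, -⟩ := ih fun x hx => h x (List.mem_cons_of_mem _ hx)
    obtain ⟨ha1, ha2⟩ := h a List.mem_cons_self
    have key := step_aux ha1 ha2 i1 i2
    simp only [List.map_cons, List.prod_cons, mul_entry, UL_00, UL_01, UL_10, UL_11]
    set x := ((l.map fun x => UL x.1 x.2).prod).1 0 0
    set z := ((l.map fun x => UL x.1 x.2).prod).1 1 0
    have e1 : (1 + a.1 * a.2) * x + a.1 * z = x + a.1 * (a.2 * x + z) := by ring
    rw [e1, one_mul]
    exact ⟨by linarith [key.1], key.2, fun _ => key.1⟩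

theorem growth_right (l : List (ℚ × ℚ)) (h : ∀ x ∈ l, 4 ≤ |x.1| ∧ 4 ≤ |x.2|) :
    1 ≤ |((l.map fun x => UL x.1 x.2).prod).1 0 0| ∧
    3 * |((l.map fun x => UL x.1 x.2).prod).1 0 1| ≤ |((l.map fun x => UL x.1 x.2).prod).1 0 0| := by
  induction l using List.reverseRecOn with
  | nil =>
    have h0 : ((1 : SpecialLinearGroup (Fin 2) ℚ)).1 0 0 = 1 := rfl
    have h1 : ((1 : SpecialLinearGroup (Fin 2) ℚ)).1 0 1 = 0 := rfl
    simp only [List.map_nil, List.prod_nil, h0, h1]
    norm_num
  | append_singleton l a ih =>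
    obtain ⟨i1, i2⟩ := ih fun x hx => h x (List.mem_append_left _ hx)
    obtain ⟨ha1, ha2⟩ := h a (List.mem_append_right _ List.mem_cons_self)
    have key := step_aux ha2 ha1 i1 i2
    simp only [List.map_append, List.prod_append, List.map_cons, List.map_nil, List.prod_cons,
      List.prod_nil, mul_one, mul_entry, UL_00, UL_01, UL_10, UL_11]
    set x := ((l.map fun x => UL x.1 x.2).prod).1 0 0
    set y := ((l.map fun x => UL x.1 x.2).prod).1 0 1
    have e1 : x * (1 + a.1 * a.2) + y * a.2 = x + a.2 * (a.1 * x + y) := by ring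
    have e2 : x * a.1 + y = a.1 * x + y := by ring
    rw [e1, e2]
    exact ⟨by linarith [key.1], key.2⟩

theorem two_lt_tr (l : List (ℚ × ℚ)) (h : ∀ x ∈ l, 4 ≤ |x.1| ∧ 4 ≤ |x.2|) (hne : l ≠ []) :
    2 < |tr ((l.map fun x => UL x.1 x.2).prod)| := by
  obtain ⟨h1, h2, h3⟩ := growth_left l h
  obtain ⟨-, h4⟩ := growth_right l h
  have h5 := h3 hne
  have hd := det_entry ((l.map fun x => UL x.1 x.2).prod)
  unfold tr
  set x := ((l.map fun x => UL x.1 x.2).prod).1 0 0
  set y := ((l.map fun x => UL x.1 x.2).prod).1 0 1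
  set z := ((l.map fun x => UL x.1 x.2).prod).1 1 0
  set w := ((l.map fun x => UL x.1 x.2).prod).1 1 1
  have h6 : |x| * |w| ≤ 1 + |y| * |z| := by
    have : x * w = 1 + y * z := by linarith
    rw [← abs_mul, this, ← abs_mul]
    calc |1 + y * z| ≤ |(1 : ℚ)| + |y * z| := abs_add_le _ _
      _ = 1 + |y * z| := by rw [abs_one]
  have h7 : |x| ≤ |x + w| + |w| := by
    have := abs_sub (x + w) w
    rwa [add_sub_cancel_right] at this
  have h8 : |w| ≤ |x| / 4 := by
    have hyz : |y| * |z| ≤ |x| * |x| / 9 := by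
      nlinarith [abs_nonneg y, abs_nonneg z, abs_nonneg x]
    have hx0 : 0 < |x| := by linarith
    have : |x| * |w| ≤ |x| * (|x| / 4) := by nlinarith
    exact le_of_mul_le_mul_left this hx0
  linarith

end growth

section words

variable {ι : Type*}

/-- The first parameter of a letter. -/
def al (p r : ι → ℚ) (x : ι × Bool) : ℚ := if x.2 then p x.1 else - r x.1

/-- The second parameter of a letter. -/
def ta (q : ι → ℚ) (x : ι × Bool) : ℚ := if x.2 then q x.1 else - q x.1

/-- The third parameter of a letter. -/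
def be (p r : ι → ℚ) (x : ι × Bool) : ℚ := if x.2 then r x.1 else - p x.1

theorem lift_mk_eq (p q r : ι → ℚ) (W : List (ι × Bool)) :
    FreeGroup.lift (fun i => M (p i) (q i) (r i)) (FreeGroup.mk W) =
      (W.map fun x => M (al p r x) (ta q x) (be p r x)).prod := by
  rw [FreeGroup.lift_mk]
  congr 1
  apply List.map_congr_left
  rintro ⟨i, b⟩ -
  cases b
  · simp [al, ta, be, M_inv]
  · simp [al, ta, be]

/-- The parameters of the factors `U * L` of a product of letters. -/
def pairs (p q r : ι → ℚ) : ℚ → List (ι × Bool) → List (ℚ × ℚ)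
  | _, [] => []
  | b, x :: W => (b + al p r x, ta q x) :: pairs p q r (be p r x) W

/-- The parameter of the last upper unipotent factor. -/
def lastb (p r : ι → ℚ) : ℚ → List (ι × Bool) → ℚ
  | b, [] => b
  | _, x :: W => lastb p r (be p r x) W

theorem U_mul_prod (p q r : ι → ℚ) (b : ℚ) (W : List (ι × Bool)) :
    U b * (W.map fun x => M (al p r x) (ta q x) (be p r x)).prod =
      ((pairs p q r b W).map fun x => UL x.1 x.2).prod * U (lastb p r b W) := by
  induction W generalizing b with
  | nil => simp [pairs, lastb]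
  | cons x W ih =>
    simp only [List.map_cons, List.prod_cons, pairs, lastb]
    rw [← mul_assoc, U_mul_M, mul_assoc, ih, mul_assoc]

theorem lastb_eq (p r : ι → ℚ) (b : ℚ) (W : List (ι × Bool)) (y : ι × Bool) 
    (hy : y ∈ W.getLast?) : lastb p r b W = be p r y := by
  induction W generalizing b with
  | nil => simp at hy
  | cons x W ih =>
    cases W with
    | nil =>
      simp at hy
      simp [lastb, hy]
    | cons x' W =>
      rw [lastb]
      apply ih
      simpa using hy

/-- The conditions on the special parameters. -/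
structure Wide (p q r : ι → ℚ) : Prop where
  pr : ∀ i j, 4 ≤ |p i + r j|
  pp : ∀ i j, i ≠ j → 4 ≤ |p i - p j|
  rr : ∀ i j, i ≠ j → 4 ≤ |r i - r j|
  qq : ∀ i, 4 ≤ |q i|

theorem Wide.ta_le {p q r : ι → ℚ} (h : Wide p q r) (x : ι × Bool) : 4 ≤ |ta q x| := by
  unfold ta
  split_ifs
  · exact h.qq _
  · rw [abs_neg]
    exact h.qq _

theorem Wide.al_le {p q r : ι → ℚ} (h : Wide p q r) (y x : ι × Bool)
    (hxy : y.1 = x.1 → y.2 = x.2) : 4 ≤ |be p r y + al p r x| := by
  obtain ⟨i, b⟩ := y
  obtain ⟨j, c⟩ := x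
  cases b <;> cases c <;> simp only [be, al, if_true, if_false, Bool.false_eq_true] at hxy ⊢
  · rw [show - p i + - r j = -(p i + r j) by ring, abs_neg]
    exact h.pr _ _
  · rw [show - p i + p j = -(p i - p j) by ring, abs_neg]
    exact h.pp _ _ (fun h' => by simpa using hxy h')
  · rw [show r i + - r j = r i - r j by ring]
    exact h.rr _ _ (fun h' => by simpa using hxy h')
  · rw [add_comm]
    exact h.pr _ _

theorem Wide.pairs_le {p q r : ι → ℚ} (h : Wide p q r) (W : List (ι × Bool)) (y : ι × Bool)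
    (hW : FreeGroup.IsReduced W) (hy : ∀ a ∈ W.head?, y.1 = a.1 → y.2 = a.2) :
    ∀ x ∈ pairs p q r (be p r y) W, 4 ≤ |x.1| ∧ 4 ≤ |x.2| := by
  induction W generalizing y with
  | nil => simp [pairs]
  | cons a W ih =>
    intro x hx
    rw [pairs, List.mem_cons] at hx
    rcases hx with rfl | hx
    · exact ⟨h.al_le y a (hy a (by simp)), h.ta_le a⟩
    · refine ih a ?_ ?_ x hx
      · exact List.IsChain.tail hW
      · intro b hb
        cases W with
        | nil => simp at hb
        | cons c W =>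
          simp at hb
          subst hb
          exact (List.isChain_cons_cons.1 hW).1

theorem Wide.two_lt_tr [DecidableEq ι] {p q r : ι → ℚ} (h : Wide p q r) (w : FreeGroup ι)
    (hw : w ≠ 1) : 2 < |tr (FreeGroup.lift (fun i => M (p i) (q i) (r i)) w)| := by
  set W := FreeGroup.reduceCyclically w.toWord with hWdef
  have hcyc : FreeGroup.IsCyclicallyReduced W :=
    FreeGroup.reduceCyclically.isCyclicallyReduced FreeGroup.isReduced_toWord
  set c : FreeGroup ι := FreeGroup.mk (FreeGroup.reduceCyclically.conjugator w.toWord) with hc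
  have hconj : w = c * FreeGroup.mk W * c⁻¹ := by
    have := FreeGroup.reduceCyclically.conj_conjugator_reduceCyclically w.toWord
    rw [hc, FreeGroup.inv_mk, FreeGroup.mul_mk, FreeGroup.mul_mk, this, FreeGroup.mk_toWord]
  have hne : W ≠ [] := by
    intro h0
    apply hw
    rw [hconj, h0, ← FreeGroup.one_eq_mk]
    simp
  have e1 : tr (FreeGroup.lift (fun i => M (p i) (q i) (r i)) w) =
      tr ((W.map fun x => M (al p r x) (ta q x) (be p r x)).prod) := by
    rw [hconj, map_mul, map_mul, map_inv, tr_conj, lift_mk_eq]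
  obtain ⟨y, hy⟩ : ∃ y, y ∈ W.getLast? :=
    ⟨W.getLast hne, by rw [List.getLast?_eq_some_getLast hne]; rfl⟩
  have e2 : tr ((W.map fun x => M (al p r x) (ta q x) (be p r x)).prod) =
      tr (((pairs p q r (be p r y) W).map fun x => UL x.1 x.2).prod) := by
    have h1 := U_mul_prod p q r (be p r y) W
    rw [lastb_eq p r _ W y hy] at h1
    rw [← tr_conj _ (U (be p r y)), h1, mul_inv_cancel_right]
  rw [e1, e2]
  apply FreeSL.two_lt_tr
  · exact h.pairs_le W y hcyc.1 (fun a ha => hcyc.2 y hy a ha)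
  · intro h0
    cases hW : W with
    | nil => exact hne hW
    | cons a W' =>
      rw [hW] at h0
      simp [pairs] at h0

end words

section generic

variable {ι : Type*}

/-- The generic parameters: affine linear polynomials. -/
noncomputable def par (c d : ι × Fin 3 → ℚ) (k : ι × Fin 3) : MvPolynomial (ι × Fin 3) ℚ :=
  MvPolynomial.C (c k) * MvPolynomial.X k + MvPolynomial.C (d k)

/-- The homomorphism given by three parameters for each generator. -/
noncomputable def hom {R : Type*} [CommRing R] (y : ι × Fin 3 → R) :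
    FreeGroup ι →* SpecialLinearGroup (Fin 2) R :=
  FreeGroup.lift fun i => M (y (i, 0)) (y (i, 1)) (y (i, 2))

theorem map_hom {R S : Type*} [CommRing R] [CommRing S] (φ : R →+* S) (y : ι × Fin 3 → R)
    (w : FreeGroup ι) : SpecialLinearGroup.map φ (hom y w) = hom (fun k => φ (y k)) w := by
  have : (SpecialLinearGroup.map φ).comp (hom y) = hom (fun k => φ (y k)) := by
    apply FreeGroup.ext_hom
    intro i
    simp [hom, map_M]
  exact DFunLike.congr_fun this w

theorem map_tr_hom {R S : Type*} [CommRing R] [CommRing S] (φ : R →+* S) (y : ι × Fin 3 → R)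
    (w : FreeGroup ι) : φ (tr (hom y w)) = tr (hom (fun k => φ (y k)) w) := by
  rw [← map_hom, tr_map]

/-- Any rational values of the generic parameters can be prescribed. -/
theorem exists_special (c d : ι × Fin 3 → ℚ) (hc : ∀ k, c k ≠ 0) (y : ι × Fin 3 → ℚ) :
    ∃ φ : MvPolynomial (ι × Fin 3) ℚ →+* ℚ, ∀ k, φ (par c d k) = y k := by
  refine ⟨(MvPolynomial.eval fun k => (y k - d k) / c k), fun k => ?_⟩
  have := hc k
  simp only [par, map_add, map_mul, MvPolynomial.eval_C, MvPolynomial.eval_X]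
  field_simp
  ring

theorem exists_wide [Countable ι] : ∃ p q r : ι → ℚ, Wide p q r := by
  obtain ⟨f, hf⟩ := exists_injective_nat ι
  have key : ∀ i j, i ≠ j → (4 : ℚ) ≤ |4 * ((f i : ℚ) + 1) - 4 * ((f j : ℚ) + 1)| := by
    intro i j hij
    have h1 : (f i : ℤ) - f j ≠ 0 := by
      intro h
      apply hij
      apply hf
      omega
    have h2 : (1 : ℤ) ≤ |(f i : ℤ) - f j| := Int.one_le_abs h1
    have h3 : (1 : ℚ) ≤ |(f i : ℚ) - f j| := by exact_mod_cast h2
    have : 4 * ((f i : ℚ) + 1) - 4 * ((f j : ℚ) + 1) = 4 * ((f i : ℚ) - f j) := by ring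
    rw [this, abs_mul]
    norm_num
    linarith
  refine ⟨fun i => 4 * (f i + 1), fun _ => 4, fun i => 4 * (f i + 1), ?_, key, key, ?_⟩
  · intro i j
    have h1 : (0 : ℚ) ≤ f i := Nat.cast_nonneg _
    have h2 : (0 : ℚ) ≤ f j := Nat.cast_nonneg _
    rw [abs_of_nonneg (by positivity)]
    linarith
  · intro i
    norm_num

end generic

section real

open Cardinal in
/-- There are algebraically independent families of real numbers indexed by any type of at most
continuum many elements. -/
theorem exists_algebraicIndependent (σ : Type) (hσ : #σ ≤ 𝔠) :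
    ∃ x : σ → ℝ, AlgebraicIndependent ℚ x := by
  obtain ⟨τ, x, hx⟩ := exists_isTranscendenceBasis' ℚ ℝ
  have htr : Algebra.Transcendental ℚ ℝ := by
    rw [Algebra.transcendental_iff_not_isAlgebraic]
    intro h
    have h1 := Algebra.IsAlgebraic.cardinalMk_le_max ℚ ℝ
    rw [Cardinal.mk_real, Cardinal.mkRat, max_self] at h1
    exact absurd h1 (not_le.2 aleph0_lt_continuum)
  have hne : Nonempty τ := hx.nonempty_iff_transcendental.2 htr
  have h := hx.lift_cardinalMk_eq_max_lift
  simp only [Cardinal.lift_id, Cardinal.mk_real, Cardinal.mkRat] at h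
  have h2 : 𝔠 ≤ #τ := by
    by_contra hlt
    rw [not_le] at hlt
    have : 𝔠 < 𝔠 := by
      nth_rewrite 2 [h]
      exact absurd h (by
        apply ne_of_gt
        exact max_lt (max_lt aleph0_lt_continuum hlt) aleph0_lt_continuum)
    exact lt_irrefl _ this
  obtain ⟨f⟩ : Nonempty (σ ↪ τ) := (hσ.trans h2)
  exact ⟨x ∘ f, hx.1.comp f f.injective⟩

/-- Generic parameters near prescribed values. -/
theorem exists_generic (ι : Type) [Countable ι] [DecidableEq ι] (T : ι × Fin 3 → ℚ) {ε : ℝ}
    (hε : 0 < ε) : ∃ y : ι × Fin 3 → ℝ, (∀ k, |y k - T k| < ε) ∧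
      ∀ w : FreeGroup ι, w ≠ 1 → tr (hom y w) ≠ 2 := by
  obtain ⟨x, hx⟩ := exists_algebraicIndependent (ι × Fin 3)
    (Cardinal.mk_le_aleph0.trans Cardinal.aleph0_le_continuum)
  have hc : ∀ k, ∃ c : ℚ, c ≠ 0 ∧ |(c : ℝ) * x k| < ε := by
    intro k
    obtain ⟨c, hc1, hc2⟩ := exists_rat_btwn (show (0 : ℝ) < ε / (|x k| + 1) by positivity)
    have hc0 : (0 : ℝ) < c := hc1
    refine ⟨c, by exact_mod_cast hc0.ne', ?_⟩
    rw [abs_mul, abs_of_pos hc0]
    calc (c : ℝ) * |x k| ≤ c * (|x k| + 1) := by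
          apply mul_le_mul_of_nonneg_left _ hc0.le
          linarith
      _ < ε / (|x k| + 1) * (|x k| + 1) := by
          apply mul_lt_mul_of_pos_right hc2
          positivity
      _ = ε := by
          field_simp
  choose c hc0 hc1 using hc
  refine ⟨fun k => c k * x k + T k, fun k => by simpa using hc1 k, ?_⟩
  intro w hw htr
  set φ : MvPolynomial (ι × Fin 3) ℚ →+* ℝ := (MvPolynomial.aeval x).toRingHom with hφ
  have hφinj : Function.Injective φ := hx
  have hy : (fun k => φ (par c T k)) = fun k => (c k : ℝ) * x k + T k := by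
    funext k
    simp [hφ, par]
  have h1 : φ (tr (hom (par c T) w)) = φ 2 := by
    rw [map_tr_hom, hy, htr, map_ofNat]
  have h2 : tr (hom (par c T) w) = 2 := hφinj h1
  obtain ⟨p, q, r, hwide⟩ := exists_wide (ι := ι)
  obtain ⟨ψ, hψ⟩ := exists_special c T hc0
    (fun k => if k.2 = 0 then p k.1 else if k.2 = 1 then q k.1 else r k.1)
  have h3 := map_tr_hom ψ (par c T) w
  rw [h2, map_ofNat] at h3
  have h4 : hom (fun k => ψ (par c T k)) w =
      FreeGroup.lift (fun i => M (p i) (q i) (r i)) w := by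
    unfold hom
    simp only [hψ]
    simp
  rw [h4] at h3
  have h5 := hwide.two_lt_tr w hw
  rw [← h3] at h5
  norm_num at h5

end real

end Pool.Agent.U237.FreeSL
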