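import Mathlib

/-!
# Paradoxical sets for free actions of free groups, with restricted moves
-/

set_option autoImplicit false

namespace Pool.Agent.U237.Paradox

theorem exists_rep (ι X : Type*) [MulAction (FreeGroup ι) X] : ∃ (π : X → X) (γ : X → FreeGroup ι),
    (∀ x, γ x • π x = x) ∧ ∀ (g g' : FreeGroup ι) (x x' : X), g • x = g' • x' → π x = π x' := by
  have h : ∀ x : X, ∃ g : FreeGroup ι,
      g • (Quotient.out (Quotient.mk (MulAction.orbitRel (FreeGroup ι) X) x)) = x := by
    intro x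
    have h1 := Quotient.mk_out (s := MulAction.orbitRel (FreeGroup ι) X) x
    have h2 : (Quotient.out (Quotient.mk (MulAction.orbitRel (FreeGroup ι) X) x)) ∈
      MulAction.orbit (FreeGroup ι) x := h1
    obtain ⟨g, hg⟩ := h2
    refine ⟨g⁻¹, ?_⟩
    rw [← hg]
    simp
  choose γ hγ using h
  refine ⟨_, γ, hγ, ?_⟩
  intro g g' x x' hx
  have : (Quotient.mk (MulAction.orbitRel (FreeGroup ι) X) x) =
      Quotient.mk (MulAction.orbitRel (FreeGroup ι) X) x' := by
    apply Quotient.sound
    change x ∈ MulAction.orbit (FreeGroup ι) x'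
    refine ⟨g⁻¹ * g', ?_⟩
    change (g⁻¹ * g') • x' = x
    rw [mul_smul, ← hx, inv_smul_smul]
  rw [this]

variable {ι X : Type*} [DecidableEq ι]

theorem toWord_of_mul (i : ι) (g : FreeGroup ι) (h : (i, false) ∉ g.toWord.head?) :
    (FreeGroup.of i * g).toWord = (i, true) :: g.toWord := by
  rw [FreeGroup.toWord_mul, FreeGroup.toWord_of]
  apply FreeGroup.IsReduced.reduce_eq
  change List.IsChain _ ((i, true) :: g.toWord)
  have hr : FreeGroup.IsReduced g.toWord := FreeGroup.isReduced_toWord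
  cases hg : g.toWord with
  | nil => exact List.isChain_singleton _
  | cons a W =>
    rw [hg] at hr h
    refine List.isChain_cons_cons.2 ⟨?_, hr⟩
    intro h1
    by_contra h2
    apply h
    obtain ⟨j, b⟩ := a
    cases b
    · simp at h1
      simp [h1]
    · simp at h2

theorem exists_moves [MulAction (FreeGroup ι) X] [hι : Nonempty ι] (Q : Set X)
    (hfree : ∀ q ∈ Q, ∀ w : FreeGroup ι, w • q = q → w = 1)
    (h3 : ∀ q ∈ Q, ∃ i j k : ι, i ≠ j ∧ j ≠ k ∧ i ≠ k ∧ FreeGroup.of i • q ∈ Q ∧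
      FreeGroup.of j • q ∈ Q ∧ FreeGroup.of k • q ∈ Q) :
    ∃ a : Bool → X → ι, (∀ s, ∀ q ∈ Q, FreeGroup.of (a s q) • q ∈ Q) ∧
      ∀ s s', ∀ q ∈ Q, ∀ q' ∈ Q, FreeGroup.of (a s q) • q = FreeGroup.of (a s' q') • q' →
        s = s' ∧ q = q' := by
  obtain ⟨π, γ, hγ, hπ⟩ := exists_rep ι X
  have key : ∀ q ∈ Q, ∃ i j : ι, i ≠ j ∧ FreeGroup.of i • q ∈ Q ∧ FreeGroup.of j • q ∈ Q ∧
      (i, false) ∉ (γ q).toWord.head? ∧ (j, false) ∉ (γ q).toWord.head? := by
    intro q hq
    obtain ⟨i, j, k, hij, hjk, hik, hi, hj, hk⟩ := h3 q hq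
    by_cases h1 : (i, false) ∈ (γ q).toWord.head?
    · refine ⟨j, k, hjk, hj, hk, ?_, ?_⟩
      · intro h2
        exact hij (by simpa using Option.mem_unique h1 h2)
      · intro h2
        exact hik (by simpa using Option.mem_unique h1 h2)
    · by_cases h2 : (j, false) ∈ (γ q).toWord.head?
      · refine ⟨i, k, hik, hi, hk, h1, ?_⟩
        intro h3
        exact hjk (by simpa using Option.mem_unique h2 h3)
      · exact ⟨i, j, hij, hi, hj, h1, h2⟩
  have key' : ∀ q : X, ∃ i j : ι, q ∈ Q → i ≠ j ∧ FreeGroup.of i • q ∈ Q ∧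
      FreeGroup.of j • q ∈ Q ∧
      (i, false) ∉ (γ q).toWord.head? ∧ (j, false) ∉ (γ q).toWord.head? := by
    intro q
    by_cases hq : q ∈ Q
    · obtain ⟨i, j, h⟩ := key q hq
      exact ⟨i, j, fun _ => h⟩
    · exact ⟨hι.some, hι.some, fun h => absurd h hq⟩
  choose f g hfg using key'
  refine ⟨fun s q => if s then f q else g q, ?_, ?_⟩
  · intro s q hq
    cases s
    · exact (hfg q hq).2.2.1
    · exact (hfg q hq).2.1
  · intro s s' q hq q' hq' h
    set a : Bool → X → ι := fun s q => if s then f q else g q with ha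
    have ha1 : ∀ s, ∀ q ∈ Q, (a s q, false) ∉ (γ q).toWord.head? := by
      intro s q hq
      cases s
      · exact (hfg q hq).2.2.2.2
      · exact (hfg q hq).2.2.2.1
    change FreeGroup.of (a s q) • q = FreeGroup.of (a s' q') • q' at h
    have hπq : π q = π q' := hπ _ _ _ _ h
    have hw : (FreeGroup.of (a s q) * γ q)⁻¹ * (FreeGroup.of (a s' q') * γ q') = 1 := by
      have h1 : ((FreeGroup.of (a s q) * γ q)⁻¹ * (FreeGroup.of (a s' q') * γ q')) • π q = π q := by
        rw [mul_smul, inv_smul_eq_iff, mul_smul, mul_smul, hγ q, h]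
        nth_rewrite 1 [hπq]
        rw [hγ q']
      have h2 : (γ q * ((FreeGroup.of (a s q) * γ q)⁻¹ * (FreeGroup.of (a s' q') * γ q')) *
          (γ q)⁻¹) • q = q := by
        have e : (γ q)⁻¹ • q = π q := by rw [inv_smul_eq_iff, hγ]
        rw [mul_smul, mul_smul, e, h1, hγ]
      have h3 := hfree q hq _ h2
      rwa [mul_inv_eq_one, mul_eq_left] at h3
    rw [inv_mul_eq_one] at hw
    have hword := congrArg FreeGroup.toWord hw
    rw [toWord_of_mul _ _ (ha1 s q hq), toWord_of_mul _ _ (ha1 s' q' hq')] at hword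
    have h4 : a s q = a s' q' := by
      have := (List.cons.inj hword).1
      simpa using this
    have h5 : γ q = γ q' := FreeGroup.toWord_injective (List.cons.inj hword).2
    have h6 : q = q' := by rw [← hγ q, ← hγ q', h5, hπq]
    refine ⟨?_, h6⟩
    subst h6
    have hne := (hfg q hq).1
    cases s <;> cases s'
    · rfl
    · exact absurd h4.symm hne
    · exact absurd h4 hne
    · rfl

end Pool.Agent.U237.Paradox
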