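import Mathlib
import Pool.Agent.U237.FreeSL

/-!
# Nine matrices in `SL₂(ℝ)` moving the open unit square
-/

set_option autoImplicit false

open Matrix

namespace Pool.Agent.U237.SquareMoves

open FreeSL

theorem class1 {p q r x y : ℝ} (hp : |p - (-5)| < 1 / 1000) (hq : |q - 1 / 10| < 1 / 1000)
    (hr : |r - 51 / 5| < 1 / 1000) (hx0 : 0 < x) (hx1 : x < 1) (hy0 : 0 < y) (hy1 : y < 2 / 5) :
    0 < (1 + p * q) * x + (p + r + p * q * r) * y ∧ (1 + p * q) * x + (p + r + p * q * r) * y < 1 ∧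
    0 < q * x + (1 + q * r) * y ∧ q * x + (1 + q * r) * y < 1 := by
  rw [abs_lt] at hp hq hr
  obtain ⟨hp1, hp2⟩ := hp
  obtain ⟨hq1, hq2⟩ := hq
  obtain ⟨hr1, hr2⟩ := hr
  have e1 : 2 < 1 + q * r := by nlinarith
  have e2 : 1 + q * r < 2.04 := by nlinarith
  have e3 : 0.49 < 1 + p * q := by nlinarith
  have e4 : 1 + p * q < 0.51 := by nlinarith
  have e5 : 0.04 < p + r + p * q * r := by
    have : p * q * r = p * (q * r) := by ring
    nlinarith
  have e6 : p + r + p * q * r < 0.16 := by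
    have : p * q * r = p * (q * r) := by ring
    nlinarith
  refine ⟨by positivity, ?_, ?_, ?_⟩
  · nlinarith
  · have : 0 < q := by linarith
    positivity
  · nlinarith

theorem class2 {p q r x y : ℝ} (hp : |p - 51 / 5| < 1 / 1000) (hq : |q - 1 / 10| < 1 / 1000)
    (hr : |r - (-5)| < 1 / 1000) (hx0 : 0 < x) (hx1 : x < 2 / 5) (hy0 : 0 < y) (hy1 : y < 1) :
    0 < (1 + p * q) * x + (p + r + p * q * r) * y ∧ (1 + p * q) * x + (p + r + p * q * r) * y < 1 ∧
    0 < q * x + (1 + q * r) * y ∧ q * x + (1 + q * r) * y < 1 := by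
  rw [abs_lt] at hp hq hr
  obtain ⟨hp1, hp2⟩ := hp
  obtain ⟨hq1, hq2⟩ := hq
  obtain ⟨hr1, hr2⟩ := hr
  have e1 : 2 < 1 + p * q := by nlinarith
  have e2 : 1 + p * q < 2.04 := by nlinarith
  have e3 : 0.49 < 1 + q * r := by nlinarith
  have e4 : 1 + q * r < 0.51 := by nlinarith
  have e5 : 0.04 < p + r + p * q * r := by nlinarith
  have e6 : p + r + p * q * r < 0.16 := by nlinarith
  refine ⟨by positivity, ?_, ?_, ?_⟩
  · nlinarith
  · have : 0 < q := by linarith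
    positivity
  · nlinarith

theorem class3 {p q r x y : ℝ} (hp : |p - 0| < 1 / 1000) (hq : |q - (-1 / 3)| < 1 / 1000)
    (hr : |r - (-1 / 3)| < 1 / 1000) (hx0 : 2 / 5 ≤ x) (hx1 : x < 1) (hy0 : 2 / 5 ≤ y)
    (hy1 : y < 1) :
    0 < (1 + p * q) * x + (p + r + p * q * r) * y ∧ (1 + p * q) * x + (p + r + p * q * r) * y < 1 ∧
    0 < q * x + (1 + q * r) * y ∧ q * x + (1 + q * r) * y < 1 := by
  rw [abs_lt] at hp hq hr
  obtain ⟨hp1, hp2⟩ := hp
  obtain ⟨hq1, hq2⟩ := hq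
  obtain ⟨hr1, hr2⟩ := hr
  have e1 : 0.999 < 1 + p * q := by nlinarith
  have e2 : 1 + p * q < 1.001 := by nlinarith
  have e3 : 1.11 < 1 + q * r := by nlinarith
  have e4 : 1 + q * r < 1.113 := by nlinarith
  have e5 : -0.336 < p + r + p * q * r := by nlinarith
  have e6 : p + r + p * q * r < -0.33 := by nlinarith
  refine ⟨?_, ?_, ?_, ?_⟩
  · nlinarith
  · nlinarith
  · nlinarith
  · nlinarith

end Pool.Agent.U237.SquareMoves
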