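import Mathlib

set_option autoImplicit false

/-!
# Products over finite sets of primes: repulsion

`pr A` is the product of the elements of `A`, `ph A` the product of the `p - 1`.
-/

namespace Pool.Agent.U237.LehRep

open Finset

/-- product of the elements -/
def pr (A : Finset ℕ) : ℕ := ∏ p ∈ A, p

/-- product of the elements minus one -/
def ph (A : Finset ℕ) : ℕ := ∏ p ∈ A, (p - 1)

theorem pr_pos {A : Finset ℕ} (h : ∀ p ∈ A, 3 ≤ p) : 0 < pr A :=
  prod_pos fun p hp => by have := h p hp; omega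

theorem ph_pos {A : Finset ℕ} (h : ∀ p ∈ A, 3 ≤ p) : 0 < ph A :=
  prod_pos fun p hp => by have := h p hp; omega

theorem pr_union {A B : Finset ℕ} (h : Disjoint A B) : pr (A ∪ B) = pr A * pr B :=
  prod_union h

theorem ph_union {A B : Finset ℕ} (h : Disjoint A B) : ph (A ∪ B) = ph A * ph B :=
  prod_union h

/-- the ratio `φ / n` -/
noncomputable def rho (A : Finset ℕ) : ℝ := (ph A : ℝ) / pr A

theorem rho_union {A B : Finset ℕ} (h : Disjoint A B) : rho (A ∪ B) = rho A * rho B := by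
  unfold rho
  rw [pr_union h, ph_union h]
  push_cast
  rw [div_mul_div_comm]

theorem rho_nonneg (A : Finset ℕ) : 0 ≤ rho A := by unfold rho; positivity

theorem rho_le_one {A : Finset ℕ} (h : ∀ p ∈ A, 3 ≤ p) : rho A ≤ 1 := by
  unfold rho
  have h0 : (0 : ℝ) < pr A := by exact_mod_cast pr_pos h
  rw [div_le_one h0]
  have : ph A ≤ pr A := prod_le_prod' fun p _ => Nat.sub_le p 1
  exact_mod_cast this

theorem rho_ge {A : Finset ℕ} (h : ∀ p ∈ A, 3 ≤ p) {x : ℝ} (hx : 0 < x) (hA : ∀ p ∈ A, x ≤ p) :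
    1 - (A.card : ℝ) / x ≤ rho A := by
  induction A using Finset.induction_on with
  | empty => simp [rho, pr, ph]
  | insert a s ha ih =>
    have h1 := ih (fun p hp => h p (mem_insert_of_mem hp)) (fun p hp => hA p (mem_insert_of_mem hp))
    have ha3 : 3 ≤ a := h a (mem_insert_self _ _)
    have hax : x ≤ a := hA a (mem_insert_self _ _)
    have e : rho (insert a s) = (1 - 1 / (a : ℝ)) * rho s := by
      unfold rho pr ph
      rw [prod_insert ha, prod_insert ha]
      have hs : (0 : ℝ) < ((∏ p ∈ s, p : ℕ) : ℝ) := by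
        exact_mod_cast pr_pos (fun p hp => h p (mem_insert_of_mem hp))
      have ha0 : (0 : ℝ) < a := by exact_mod_cast (by omega : 0 < a)
      rw [Nat.cast_mul, Nat.cast_mul, Nat.cast_sub (by omega : 1 ≤ a)]
      field_simp
      push_cast
      ring
    rw [e, card_insert_of_notMem ha]
    have ha0 : (0 : ℝ) < a := by exact_mod_cast (by omega : 0 < a)
    have h2 : 1 / (a : ℝ) ≤ 1 / x := one_div_le_one_div_of_le hx hax
    have h3 : rho s ≤ 1 := rho_le_one (fun p hp => h p (mem_insert_of_mem hp))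
    have h4 : 0 ≤ rho s := rho_nonneg s
    have h5 : (0 : ℝ) ≤ 1 / (a : ℝ) := by positivity
    have h6 : (((s.card + 1 : ℕ) : ℝ)) / x = (s.card : ℝ) / x + 1 / x := by
      push_cast; rw [add_div]
    rw [h6]
    nlinarith [mul_le_mul_of_nonneg_left h3 h5]

/-- the change of `rho` when large elements are added -/
theorem rho_sub {A A' : Finset ℕ} (hA' : A' ⊆ A) (h : ∀ p ∈ A, 3 ≤ p) {x : ℝ} (hx : 0 < x)
    (hA : ∀ p ∈ A \ A', x ≤ p) :
    rho A ≤ rho A' ∧ rho A' - ((A \ A').card : ℝ) / x ≤ rho A := by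
  have e : rho A = rho A' * rho (A \ A') := by
    rw [← rho_union disjoint_sdiff, union_sdiff_of_subset hA']
  have h1 := rho_ge (A := A \ A') (fun p hp => h p (mem_sdiff.1 hp).1) hx hA
  have h2 := rho_le_one (A := A \ A') (fun p hp => h p (mem_sdiff.1 hp).1)
  have h3 := rho_le_one (A := A') (fun p hp => h p (hA' hp))
  have h4 := rho_nonneg A'
  have h5 := rho_nonneg (A \ A')
  have h6 : (0 : ℝ) ≤ ((A \ A').card : ℝ) / x := by positivity
  rw [e]
  constructor
  · nlinarith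
  · nlinarith [mul_le_mul_of_nonneg_left h1 h4, mul_le_mul_of_nonneg_right h3 h6]

/-- nonvanishing -/
theorem ne_of_cop {A B : Finset ℕ} {K L : ℕ} (hA : ∀ p ∈ A, p.Prime) (hB : ∀ p ∈ B, p.Prime)
    (hAB : Disjoint A B) (hK : ∀ p ∈ A, ¬ p ∣ K) (hL : ∀ p ∈ B, ¬ p ∣ L)
    (hne : (A ∪ B).Nonempty) : K * ph A * pr B ≠ L * ph B * pr A := by
  -- the largest element
  set w := (A ∪ B).max' hne with hw
  have hwm : w ∈ A ∪ B := max'_mem _ _
  have hmax : ∀ p ∈ A ∪ B, p ≤ w := fun p hp => le_max' _ _ hp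
  have key : ∀ (A B : Finset ℕ) (K L : ℕ), (∀ p ∈ A, p.Prime) → (∀ p ∈ B, p.Prime) →
      Disjoint A B → (∀ p ∈ A, ¬ p ∣ K) → w ∈ A → (∀ p ∈ A ∪ B, p ≤ w) →
      K * ph A * pr B ≠ L * ph B * pr A := by
    intro A B K L hA hB hAB hK hwA hmax h
    have hwp : w.Prime := hA w hwA
    have h1 : w ∣ L * ph B * pr A := (dvd_prod_of_mem (fun p => p) hwA).mul_left _
    rw [← h, hwp.dvd_mul, hwp.dvd_mul] at h1
    rcases h1 with (h1 | h1) | h1
    · exact hK w hwA h1
    · rw [ph, hwp.prime.dvd_finsetProd_iff] at h1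
      obtain ⟨p, hp, hpd⟩ := h1
      have hp2 := (hA p hp).two_le
      have := Nat.le_of_dvd (by omega) hpd
      have := hmax p (mem_union_left _ hp)
      omega
    · rw [pr, hwp.prime.dvd_finsetProd_iff] at h1
      obtain ⟨p, hp, hpd⟩ := h1
      have : w = p := (Nat.prime_dvd_prime_iff_eq hwp (hB p hp)).1 hpd
      exact (disjoint_left.1 hAB hwA) (this ▸ hp)
  rcases mem_union.1 hwm with h | h
  · exact key A B K L hA hB hAB hK h hmax
  · exact (key B A L K hB hA hAB.symm hL h (fun p hp => hmax p (by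
      rw [union_comm]; exact hp))).symm

/-- the data of two different solutions with the common primes `C` and the different primes `A`, `B` -/
structure Pair (A B C : Finset ℕ) (K L : ℕ) : Prop where
  pA : ∀ p ∈ A, p.Prime ∧ 3 ≤ p
  pB : ∀ p ∈ B, p.Prime ∧ 3 ≤ p
  pC : ∀ p ∈ C, p.Prime ∧ 3 ≤ p
  AB : Disjoint A B
  CA : Disjoint C A
  CB : Disjoint C B
  eA : K * ph C * ph A + 1 = pr C * pr A
  eB : L * ph C * ph B + 1 = pr C * pr B
  lt : pr B < pr A

namespace Pair

variable {A B C : Finset ℕ} {K L : ℕ} (h : Pair A B C K L)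

include h

theorem hK : ∀ p ∈ A, ¬ p ∣ K := by
  intro p hp hd
  have h1 : p ∣ K * ph C * ph A + 1 := by
    rw [h.eA]; exact (dvd_prod_of_mem (fun p => p) hp).mul_left _
  have h2 : p ∣ K * ph C * ph A := (hd.mul_right _).mul_right _
  have h3 : p ∣ 1 := (Nat.dvd_add_right h2).1 h1
  exact (h.pA p hp).1.one_lt.ne' (Nat.dvd_one.1 h3)

theorem hL : ∀ p ∈ B, ¬ p ∣ L := by
  intro p hp hd
  have h1 : p ∣ L * ph C * ph B + 1 := by
    rw [h.eB]; exact (dvd_prod_of_mem (fun p => p) hp).mul_left _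
  have h2 : p ∣ L * ph C * ph B := (hd.mul_right _).mul_right _
  have h3 : p ∣ 1 := (Nat.dvd_add_right h2).1 h1
  exact (h.pB p hp).1.one_lt.ne' (Nat.dvd_one.1 h3)

theorem A3 : ∀ p ∈ A, 3 ≤ p := fun p hp => (h.pA p hp).2
theorem B3 : ∀ p ∈ B, 3 ≤ p := fun p hp => (h.pB p hp).2
theorem C3 : ∀ p ∈ C, 3 ≤ p := fun p hp => (h.pC p hp).2

/-- the basic relation -/
theorem rel : (ph C : ℤ) * ((K : ℤ) * ph A * pr B - L * ph B * pr A) = pr A - pr B := by
  have h1 : (K : ℤ) * ph C * ph A + 1 = pr C * pr A := by exact_mod_cast h.eA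
  have h2 : (L : ℤ) * ph C * ph B + 1 = pr C * pr B := by exact_mod_cast h.eB
  have : (ph C : ℤ) * ((K : ℤ) * ph A * pr B - L * ph B * pr A) =
      (K * ph C * ph A + 1) * pr B - pr B - ((L * ph C * ph B + 1) * pr A - pr A) := by ring
  rw [this, h1, h2]
  ring

theorem X_pos : L * ph B * pr A < K * ph A * pr B := by
  have h1 := h.rel
  have h2 : (0 : ℤ) < pr A - pr B := by
    have := h.lt
    have : (pr B : ℤ) < pr A := by exact_mod_cast this
    linarith
  rw [← h1] at h2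
  have h3 : (0 : ℤ) < ph C := by exact_mod_cast ph_pos h.C3
  have h4 := (mul_pos_iff_of_pos_left h3).1 h2
  have : (L : ℤ) * ph B * pr A < K * ph A * pr B := by linarith
  exact_mod_cast this

theorem ph_lt : ph C + pr B ≤ pr A := by
  have h1 := h.rel
  have h2 := h.X_pos
  have h3 : (1 : ℤ) ≤ (K : ℤ) * ph A * pr B - L * ph B * pr A := by
    have : (L : ℤ) * ph B * pr A + 1 ≤ K * ph A * pr B := by exact_mod_cast h2
    linarith
  have h4 : (0 : ℤ) ≤ ph C := by positivity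
  have : (ph C : ℤ) + pr B ≤ pr A := by nlinarith
  exact_mod_cast this

/-- the difference of the two ratios is tiny -/
theorem tiny : (K : ℝ) * rho A - L * rho B ≤ 1 / ph C ∧ 0 ≤ (K : ℝ) * rho A - L * rho B := by
  have hA0 : (0 : ℝ) < pr A := by exact_mod_cast pr_pos h.A3
  have hB0 : (0 : ℝ) < pr B := by exact_mod_cast pr_pos h.B3
  have hB1 : (1 : ℝ) ≤ pr B := by exact_mod_cast pr_pos h.B3
  have hC0 : (0 : ℝ) < ph C := by exact_mod_cast ph_pos h.C3
  have e : (K : ℝ) * rho A - L * rho B =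
      ((K : ℝ) * ph A * pr B - L * ph B * pr A) / (pr A * pr B) := by
    unfold rho; field_simp
  have h1 : (ph C : ℝ) * ((K : ℝ) * ph A * pr B - L * ph B * pr A) = pr A - pr B := by
    exact_mod_cast h.rel
  have h2 : (0 : ℝ) ≤ (K : ℝ) * ph A * pr B - L * ph B * pr A := by
    have : (L : ℝ) * ph B * pr A < K * ph A * pr B := by exact_mod_cast h.X_pos
    linarith
  rw [e]
  constructor
  · rw [div_le_div_iff₀ (by positivity) hC0, one_mul, mul_comm, h1]
    nlinarith
  · positivity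

/-- the key estimate -/
theorem step {A' B' : Finset ℕ} (hA' : A' ⊆ A) (hB' : B' ⊆ B)
    (hne : K * ph A' * pr B' ≠ L * ph B' * pr A') {x : ℕ} (hx : 0 < x)
    (hAx : ∀ p ∈ A \ A', x ≤ p) (hBx : ∀ p ∈ B \ B', x ≤ p)
    (hsmall : 2 * (pr A' * pr B') ≤ ph C) :
    x ≤ 2 * (max K L) * (A.card + B.card) * (pr A' * pr B') := by
  have hA'3 : ∀ p ∈ A', 3 ≤ p := fun p hp => h.A3 p (hA' hp)
  have hB'3 : ∀ p ∈ B', 3 ≤ p := fun p hp => h.B3 p (hB' hp)
  have hA0 : (0 : ℝ) < pr A' := by exact_mod_cast pr_pos hA'3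
  have hB0 : (0 : ℝ) < pr B' := by exact_mod_cast pr_pos hB'3
  have hC0 : (0 : ℝ) < ph C := by exact_mod_cast ph_pos h.C3
  have hx0 : (0 : ℝ) < x := by exact_mod_cast hx
  obtain ⟨a1, a2⟩ := rho_sub hA' h.A3 hx0 (fun p hp => by exact_mod_cast hAx p hp)
  obtain ⟨b1, b2⟩ := rho_sub hB' h.B3 hx0 (fun p hp => by exact_mod_cast hBx p hp)
  obtain ⟨t1, t2⟩ := h.tiny
  -- lower bound for the difference at A', B'
  have e : (K : ℝ) * rho A' - L * rho B' =
      ((K : ℝ) * ph A' * pr B' - L * ph B' * pr A') / (pr A' * pr B') := by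
    unfold rho; field_simp
  have hint : (1 : ℝ) ≤ |(K : ℝ) * ph A' * pr B' - L * ph B' * pr A'| := by
    have h1 : ((K : ℤ) * ph A' * pr B' - L * ph B' * pr A') ≠ 0 := by
      intro h0
      apply hne
      have : ((K * ph A' * pr B' : ℕ) : ℤ) = ((L * ph B' * pr A' : ℕ) : ℤ) := by
        push_cast; linarith
      exact_mod_cast this
    have h2 := Int.one_le_abs h1
    have h3 : ((1 : ℤ) : ℝ) ≤ ((|(K : ℤ) * ph A' * pr B' - L * ph B' * pr A'| : ℤ) : ℝ) := by
      exact_mod_cast h2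
    push_cast at h3
    exact h3
  have hlow : 1 / ((pr A' : ℝ) * pr B') ≤ |(K : ℝ) * rho A' - L * rho B'| := by
    rw [e, abs_div, abs_of_pos (show (0 : ℝ) < (pr A' : ℝ) * pr B' by positivity)]
    gcongr
  -- upper bound
  have hKm : (K : ℝ) ≤ ((max K L : ℕ) : ℝ) := by exact_mod_cast le_max_left _ _
  have hLm : (L : ℝ) ≤ ((max K L : ℕ) : ℝ) := by exact_mod_cast le_max_right _ _
  have hK0 : (0 : ℝ) ≤ K := by positivity
  have hL0 : (0 : ℝ) ≤ L := by positivity
  have cA : ((A \ A').card : ℝ) ≤ A.card := by exact_mod_cast card_le_card sdiff_subset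
  have cB : ((B \ B').card : ℝ) ≤ B.card := by exact_mod_cast card_le_card sdiff_subset
  have dA : ((A \ A').card : ℝ) / x ≤ (A.card : ℝ) / x := by gcongr
  have dB : ((B \ B').card : ℝ) / x ≤ (B.card : ℝ) / x := by gcongr
  have uA : (K : ℝ) * rho A' - K * rho A ≤ (max K L : ℕ) * ((A.card : ℝ) / x) := by
    have : rho A' - rho A ≤ (A.card : ℝ) / x := by linarith
    have h0 : (0 : ℝ) ≤ (A.card : ℝ) / x := by positivity
    nlinarith [mul_le_mul_of_nonneg_left this hK0, mul_le_mul_of_nonneg_right hKm h0]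
  have uB : (L : ℝ) * rho B' - L * rho B ≤ (max K L : ℕ) * ((B.card : ℝ) / x) := by
    have : rho B' - rho B ≤ (B.card : ℝ) / x := by linarith
    have h0 : (0 : ℝ) ≤ (B.card : ℝ) / x := by positivity
    nlinarith [mul_le_mul_of_nonneg_left this hL0, mul_le_mul_of_nonneg_right hLm h0]
  have vA : 0 ≤ (K : ℝ) * rho A' - K * rho A := by nlinarith
  have vB : 0 ≤ (L : ℝ) * rho B' - L * rho B := by nlinarith
  have hup : |(K : ℝ) * rho A' - L * rho B'| ≤ 1 / ph C +
      (max K L : ℕ) * ((A.card : ℝ) + B.card) / x := by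
    have e2 : ((max K L : ℕ) : ℝ) * ((A.card : ℝ) + B.card) / x =
      (max K L : ℕ) * ((A.card : ℝ) / x) + (max K L : ℕ) * ((B.card : ℝ) / x) := by
      field_simp
    rw [e2, abs_le]
    have h1 : (0 : ℝ) ≤ (max K L : ℕ) * ((A.card : ℝ) / x) := by positivity
    have h2 : (0 : ℝ) ≤ (max K L : ℕ) * ((B.card : ℝ) / x) := by positivity
    have h3 : (0 : ℝ) ≤ 1 / (ph C : ℝ) := by positivity
    constructor <;> linarith
  have hhalf : 1 / (ph C : ℝ) ≤ 1 / (2 * ((pr A' : ℝ) * pr B')) := by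
    apply one_div_le_one_div_of_le (by positivity)
    exact_mod_cast hsmall
  have hfin : 1 / (2 * ((pr A' : ℝ) * pr B')) ≤ (max K L : ℕ) * ((A.card : ℝ) + B.card) / x := by
    have e3 : 1 / ((pr A' : ℝ) * pr B') = 1 / (2 * ((pr A' : ℝ) * pr B')) +
        1 / (2 * ((pr A' : ℝ) * pr B')) := by field_simp; norm_num
    linarith
  rw [div_le_div_iff₀ (by positivity) hx0, one_mul] at hfin
  have : (x : ℝ) ≤ 2 * (max K L : ℕ) * ((A.card : ℝ) + B.card) * ((pr A' : ℝ) * pr B') := by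
    linarith
  exact_mod_cast this

end Pair

end Pool.Agent.U237.LehRep
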