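import Pool.Agent.U237.LehRep

set_option autoImplicit false

/-!
# The double exponential repulsion
-/

namespace Pool.Agent.U237.LehRep

open Finset

namespace Pair

variable {A B C : Finset ℕ} {K L : ℕ} (h : Pair A B C K L)

include h

theorem mem3 {p : ℕ} (hp : p ∈ A ∪ B) : 3 ≤ p := by
  rcases mem_union.1 hp with h1 | h1
  · exact h.A3 p h1
  · exact h.B3 p h1

theorem pr_inter {S : Finset ℕ} (hS : S ⊆ A ∪ B) : pr S = pr (A ∩ S) * pr (B ∩ S) := by
  have h1 : S = (A ∩ S) ∪ (B ∩ S) := by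
    rw [← union_inter_distrib_right, inter_eq_right.2 hS]
  have h2 : Disjoint (A ∩ S) (B ∩ S) :=
    Disjoint.mono inter_subset_left inter_subset_left h.AB
  conv_lhs => rw [h1]
  exact pr_union h2

/-- the least element of the complement of a lower set is small -/
theorem step' {S : Finset ℕ} (hS : S ⊆ A ∪ B) (hne : S.Nonempty ∨ K ≠ L) {x : ℕ} (hx : 0 < x)
    (hSx : ∀ p ∈ (A ∪ B) \ S, x ≤ p) (hsmall : 2 * pr S ≤ ph C) :
    x ≤ 2 * (max K L) * (A ∪ B).card * pr S := by
  rw [card_union_of_disjoint h.AB, h.pr_inter hS]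
  rw [h.pr_inter hS] at hsmall
  refine h.step inter_subset_left inter_subset_left ?_ hx ?_ ?_ hsmall
  · by_cases hS0 : S.Nonempty
    · refine ne_of_cop (fun p hp => (h.pA p (mem_inter.1 hp).1).1)
        (fun p hp => (h.pB p (mem_inter.1 hp).1).1)
        (Disjoint.mono inter_subset_left inter_subset_left h.AB)
        (fun p hp => h.hK p (mem_inter.1 hp).1) (fun p hp => h.hL p (mem_inter.1 hp).1) ?_
      rw [← union_inter_distrib_right, inter_eq_right.2 hS]
      exact hS0
    · have hKL : K ≠ L := hne.resolve_left hS0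
      have hS1 : S = ∅ := not_nonempty_iff_eq_empty.1 hS0
      subst hS1
      simpa [pr, ph] using hKL
  · intro p hp
    rw [mem_sdiff, mem_inter] at hp
    exact hSx p (mem_sdiff.2 ⟨mem_union_left _ hp.1, fun hpS => hp.2 ⟨hp.1, hpS⟩⟩)
  · intro p hp
    rw [mem_sdiff, mem_inter] at hp
    exact hSx p (mem_sdiff.2 ⟨mem_union_right _ hp.1, fun hpS => hp.2 ⟨hp.1, hpS⟩⟩)

theorem A_nonempty : A.Nonempty := by
  rw [nonempty_iff_ne_empty]
  rintro rfl
  have h1 := h.lt
  have h2 := pr_pos h.B3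
  have e : pr (∅ : Finset ℕ) = 1 := by simp [pr]
  rw [e] at h1
  omega

theorem cardU_pos : 0 < (A ∪ B).card := Finset.card_pos.2 (h.A_nonempty.mono subset_union_left)

theorem K_pos : 0 < K := by
  have h1 := h.X_pos
  by_contra h0
  have : K = 0 := by omega
  rw [this] at h1
  omega

/-- the induction -/
theorem lower_bound {p : ℕ} (hp : p ∈ A ∪ B) (hmin : ∀ q ∈ A ∪ B, p ≤ q)
    (hc : 2 * ((2 * (max K L) * (A ∪ B).card) ^ (2 ^ ((A ∪ B).card - 1) - 1) *
      p ^ (2 ^ ((A ∪ B).card - 1))) ≤ ph C) :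
    ∀ (i : ℕ) (S : Finset ℕ), S.card = i + 1 → S ⊆ A ∪ B →
      (∀ x ∈ S, ∀ y ∈ A ∪ B, y < x → y ∈ S) →
      pr S ≤ (2 * (max K L) * (A ∪ B).card) ^ (2 ^ i - 1) * p ^ (2 ^ i) := by
  have hr := h.cardU_pos
  have hK := h.K_pos
  have hm : 1 ≤ max K L := le_trans hK (le_max_left _ _)
  have hc1 : 1 ≤ 2 * (max K L) * (A ∪ B).card :=
    Nat.mul_pos (by omega) hr
  have hp3 := h.mem3 hp
  intro i
  induction i with
  | zero =>
    intro S hS hSU hlow
    obtain ⟨x, rfl⟩ := card_eq_one.1 hS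
    have hx : x = p := by
      have h1 : x ∈ A ∪ B := hSU (mem_singleton_self x)
      have h2 := hmin x h1
      by_contra hne
      have h3 := hlow x (mem_singleton_self x) p hp (by omega)
      exact hne (mem_singleton.1 h3).symm
    subst hx
    simp [pr]
  | succ i ih =>
    intro S hS hSU hlow
    have hne : S.Nonempty := Finset.card_pos.1 (by omega)
    set x := S.max' hne with hx
    have hxS : x ∈ S := max'_mem _ _
    have hxU := hSU hxS
    have hx3 := h.mem3 hxU
    have hcard : (S.erase x).card = i + 1 := by rw [card_erase_of_mem hxS]; omega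
    have hsub : S.erase x ⊆ A ∪ B := (erase_subset _ _).trans hSU
    have hlow' : ∀ y ∈ S.erase x, ∀ z ∈ A ∪ B, z < y → z ∈ S.erase x := by
      intro y hy z hz hzy
      have hyS := mem_of_mem_erase hy
      have hyx : y ≤ x := le_max' _ _ hyS
      exact mem_erase.2 ⟨by omega, hlow y hyS z hz hzy⟩
    have h1 := ih (S.erase x) hcard hsub hlow'
    have hi : i + 2 ≤ (A ∪ B).card := by
      have := card_le_card hSU
      omega
    have hmono : (2 * (max K L) * (A ∪ B).card) ^ (2 ^ i - 1) * p ^ (2 ^ i) ≤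
        (2 * (max K L) * (A ∪ B).card) ^ (2 ^ ((A ∪ B).card - 1) - 1) *
          p ^ (2 ^ ((A ∪ B).card - 1)) := by
      have h2 : 2 ^ i ≤ 2 ^ ((A ∪ B).card - 1) := Nat.pow_le_pow_right (by norm_num) (by omega)
      exact Nat.mul_le_mul (Nat.pow_le_pow_right hc1 (by omega))
        (Nat.pow_le_pow_right (by omega) h2)
    have hsmall : 2 * pr (S.erase x) ≤ ph C := by
      refine le_trans (Nat.mul_le_mul_left 2 (le_trans h1 hmono)) hc
    have hstep : x ≤ 2 * (max K L) * (A ∪ B).card * pr (S.erase x) := by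
      refine h.step' hsub (Or.inl (Finset.card_pos.1 (by omega))) (by omega) ?_ hsmall
      intro y hy
      rw [mem_sdiff, mem_erase] at hy
      by_contra hlt
      have h3 := hlow x hxS y hy.1 (by omega)
      exact hy.2 ⟨by omega, h3⟩
    have e1 : pr S = x * pr (S.erase x) := by
      unfold pr
      exact (mul_prod_erase S (fun p => p) hxS).symm
    rw [e1]
    set c := 2 * (max K L) * (A ∪ B).card with hcdef
    set P := pr (S.erase x) with hP
    have h2i : 1 ≤ 2 ^ i := Nat.one_le_two_pow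
    calc x * P ≤ c * P * P := Nat.mul_le_mul_right _ hstep
      _ ≤ c * (c ^ (2 ^ i - 1) * p ^ (2 ^ i)) * (c ^ (2 ^ i - 1) * p ^ (2 ^ i)) := by
          gcongr
      _ = c ^ (1 + (2 ^ i - 1) + (2 ^ i - 1)) * p ^ (2 ^ i + 2 ^ i) := by
          rw [pow_add, pow_add, pow_add]; ring
      _ = c ^ (2 ^ (i + 1) - 1) * p ^ (2 ^ (i + 1)) := by
          have e2 : 2 ^ (i + 1) = 2 ^ i + 2 ^ i := by rw [pow_succ]; ring
          rw [e2]
          congr 2
          omega

/-- **repulsion**, in terms of the least prime -/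
theorem repulsion_min {p : ℕ} (hp : p ∈ A ∪ B) (hmin : ∀ q ∈ A ∪ B, p ≤ q) :
    ph C < 2 * ((2 * (max K L) * (A ∪ B).card) ^ (2 ^ ((A ∪ B).card - 1) - 1) *
      p ^ (2 ^ ((A ∪ B).card - 1))) := by
  by_contra hcon
  push Not at hcon
  have hr := h.cardU_pos
  have h1 := h.lower_bound hp hmin hcon ((A ∪ B).card - 1) (A ∪ B) (by omega) Subset.rfl
    (fun _ _ y hy _ => hy)
  have h2 : pr (A ∪ B) = pr A * pr B := pr_union h.AB
  have h3 := h.ph_lt
  have h4 := pr_pos h.B3
  have h5 : pr A ≤ pr A * pr B := Nat.le_mul_of_pos_right _ h4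
  have h6 := ph_pos h.C3
  omega

/-- **repulsion**, in terms of any prime which divides exactly one of the two numbers -/
theorem repulsion {p : ℕ} (hp : p ∈ A ∪ B) :
    ph C < 2 * ((2 * (max K L) * (A ∪ B).card) ^ (2 ^ ((A ∪ B).card - 1) - 1) *
      p ^ (2 ^ ((A ∪ B).card - 1))) := by
  have hne : (A ∪ B).Nonempty := ⟨p, hp⟩
  have h1 := h.repulsion_min (min'_mem _ hne) (fun q hq => min'_le _ q hq)
  refine lt_of_lt_of_le h1 ?_
  gcongr
  exact min'_le _ _ hp

/-- **repulsion** for different indices -/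
theorem repulsion_ne (hKL : K ≠ L) :
    ph C < 2 * (2 * (max K L) * (A ∪ B).card) ^ (2 ^ (A ∪ B).card - 1) := by
  have hr := h.cardU_pos
  have hK := h.K_pos
  have hm : 1 ≤ max K L := le_trans hK (le_max_left _ _)
  have hc1 : 1 ≤ 2 * (max K L) * (A ∪ B).card :=
    Nat.mul_pos (by omega) hr
  have hpow : 1 ≤ (2 * (max K L) * (A ∪ B).card) ^ (2 ^ (A ∪ B).card - 1) := Nat.one_le_pow _ _ hc1
  by_cases hC : ph C < 2
  · omega
  push Not at hC
  have hne : (A ∪ B).Nonempty := Finset.card_pos.1 hr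
  have hmem := min'_mem _ hne
  have h1 := h.repulsion_min hmem (fun q hq => min'_le _ q hq)
  have h2 : (A ∪ B).min' hne ≤ 2 * (max K L) * (A ∪ B).card * pr ∅ := by
    refine h.step' (empty_subset _) (Or.inr hKL) (by have := h.mem3 hmem; omega) ?_ ?_
    · intro q hq
      exact min'_le _ q (mem_sdiff.1 hq).1
    · simpa [pr] using hC
  have h3 : pr ∅ = 1 := by simp [pr]
  rw [h3, mul_one] at h2
  refine lt_of_lt_of_le h1 ?_
  set c := 2 * (max K L) * (A ∪ B).card with hcdef
  set r := (A ∪ B).card with hrdef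
  have h4 : 1 ≤ 2 ^ (r - 1) := Nat.one_le_two_pow
  have e : 2 ^ r - 1 = (2 ^ (r - 1) - 1) + 2 ^ (r - 1) := by
    have : 2 ^ r = 2 ^ (r - 1) + 2 ^ (r - 1) := by
      obtain ⟨s, hs⟩ : ∃ s, r = s + 1 := ⟨r - 1, by omega⟩
      rw [hs, Nat.add_sub_cancel, pow_succ]; ring
    omega
  rw [e, pow_add]
  gcongr

end Pair

end Pool.Agent.U237.LehRep
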