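import Pool.Agent.U237.LehRep2

set_option autoImplicit false

/-!
# Ratio bounds for sets of odd primes
-/

namespace Pool.Agent.U237.LehRep

open Finset

theorem pow_ineq {q : ℕ} (hq : 6 ≤ q) : (q + 1) ^ 10 ≤ q ^ 11 := by
  have h1 : 6 * (q + 1) ≤ 7 * q := by omega
  have h2 : (6 * (q + 1)) ^ 10 ≤ (7 * q) ^ 10 := Nat.pow_le_pow_left h1 10
  rw [mul_pow, mul_pow] at h2
  have h3 : 7 ^ 10 * q ^ 10 ≤ 6 ^ 10 * (q ^ 10 * 6) := by
    have : (7 : ℕ) ^ 10 ≤ 6 ^ 10 * 6 := by norm_num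
    calc 7 ^ 10 * q ^ 10 ≤ 6 ^ 10 * 6 * q ^ 10 := Nat.mul_le_mul_right _ this
      _ = 6 ^ 10 * (q ^ 10 * 6) := by ring
  have h4 : q ^ 10 * 6 ≤ q ^ 11 := by
    rw [pow_succ]
    exact Nat.mul_le_mul_left _ hq
  have h5 : 6 ^ 10 * (q + 1) ^ 10 ≤ 6 ^ 10 * q ^ 11 :=
    le_trans h2 (le_trans h3 (Nat.mul_le_mul_left _ h4))
  exact Nat.le_of_mul_le_mul_left h5 (by norm_num)

/-- for odd primes `n = ∏ p` satisfies `n ^ 10 ≤ (15 ^ 10 / 8 ^ 11) φ(n) ^ 11` -/
theorem ten {S : Finset ℕ} (hS : ∀ p ∈ S, p.Prime ∧ 3 ≤ p) :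
    8 ^ 11 * pr S ^ 10 ≤ 15 ^ 10 * ph S ^ 11 := by
  classical
  have e : S = S.filter (fun p => p < 7) ∪ S.filter (fun p => ¬ p < 7) := by
    rw [filter_union_filter_not_eq]
  have hd : Disjoint (S.filter (fun p => p < 7)) (S.filter (fun p => ¬ p < 7)) :=
    disjoint_filter_filter_not _ _ _
  have h2 : pr (S.filter (fun p => ¬ p < 7)) ^ 10 ≤ ph (S.filter (fun p => ¬ p < 7)) ^ 11 := by
    unfold pr ph
    rw [← prod_pow, ← prod_pow]
    apply prod_le_prod'
    intro p hp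
    rw [mem_filter] at hp
    have h3 := pow_ineq (q := p - 1) (by omega)
    have : p - 1 + 1 = p := by omega
    rwa [this] at h3
  have h1 : 8 ^ 11 * pr (S.filter (fun p => p < 7)) ^ 10 ≤
      15 ^ 10 * ph (S.filter (fun p => p < 7)) ^ 11 := by
    have hsub : S.filter (fun p => p < 7) ⊆ {3, 5} := by
      intro p hp
      rw [mem_filter] at hp
      obtain ⟨h3, h4⟩ := hp
      obtain ⟨h5, h6⟩ := hS p h3
      interval_cases p
      · simp
      · exact absurd h5 (by norm_num)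
      · simp
      · exact absurd h5 (by norm_num)
    have hmem : S.filter (fun p => p < 7) ∈ ({3, 5} : Finset ℕ).powerset := mem_powerset.2 hsub
    have hall : ∀ T ∈ ({3, 5} : Finset ℕ).powerset, 8 ^ 11 * pr T ^ 10 ≤ 15 ^ 10 * ph T ^ 11 := by
      intro T hT
      have : T = ∅ ∨ T = {3} ∨ T = {5} ∨ T = {3, 5} := by
        revert hT
        revert T
        decide
      rcases this with rfl | rfl | rfl | rfl <;> norm_num [pr, ph]
    exact hall _ hmem
  rw [e, pr_union hd, ph_union hd, mul_pow, mul_pow]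
  calc 8 ^ 11 * (pr (S.filter (fun p => p < 7)) ^ 10 * pr (S.filter (fun p => ¬ p < 7)) ^ 10)
      = (8 ^ 11 * pr (S.filter (fun p => p < 7)) ^ 10) * pr (S.filter (fun p => ¬ p < 7)) ^ 10 := by
        ring
    _ ≤ (15 ^ 10 * ph (S.filter (fun p => p < 7)) ^ 11) *
        ph (S.filter (fun p => ¬ p < 7)) ^ 11 := Nat.mul_le_mul h1 h2
    _ = _ := by ring

/-- `r` different numbers from `3` on -/
theorem ratio_card (U : Finset ℕ) (hU : ∀ p ∈ U, 3 ≤ p) : 2 * pr U ≤ (U.card + 2) * ph U := by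
  induction U using Finset.induction_on_max with
  | empty => simp [pr, ph]
  | insert x s hx ih =>
    have hxs : x ∉ s := fun h => lt_irrefl _ (hx x h)
    have h1 := ih (fun p hp => hU p (mem_insert_of_mem hp))
    have hx3 := hU x (mem_insert_self _ _)
    -- the largest element
    have hxr : s.card + 3 ≤ x := by
      have hsub : s ⊆ Ico 3 x := fun p hp => mem_Ico.2 ⟨hU p (mem_insert_of_mem hp), hx p hp⟩
      have := card_le_card hsub
      rw [Nat.card_Ico] at this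
      omega
    have e1 : pr (insert x s) = x * pr s := prod_insert hxs
    have e2 : ph (insert x s) = (x - 1) * ph s := prod_insert hxs
    rw [e1, e2, card_insert_of_notMem hxs]
    have h2 : x * (s.card + 2) ≤ (s.card + 1 + 2) * (x - 1) := by
      obtain ⟨y, rfl⟩ : ∃ y, x = y + 1 := ⟨x - 1, by omega⟩
      rw [Nat.add_sub_cancel]
      nlinarith
    calc 2 * (x * pr s) = x * (2 * pr s) := by ring
      _ ≤ x * ((s.card + 2) * ph s) := Nat.mul_le_mul_left _ h1
      _ = (x * (s.card + 2)) * ph s := by ring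
      _ ≤ ((s.card + 1 + 2) * (x - 1)) * ph s := Nat.mul_le_mul_right _ h2
      _ = _ := by ring

theorem Icc_eq (s : ℕ) (hs : 3 ≤ s) : 2 * pr (Icc 3 s) = s * ph (Icc 3 s) := by
  induction s, hs using Nat.le_induction with
  | base => simp [pr, ph]
  | succ s hs ih =>
    have e : Icc 3 (s + 1) = insert (s + 1) (Icc 3 s) := by
      ext x
      simp only [mem_Icc, mem_insert]
      omega
    have hn : s + 1 ∉ Icc 3 s := by simp
    rw [e]
    have e1 : pr (insert (s + 1) (Icc 3 s)) = (s + 1) * pr (Icc 3 s) := prod_insert hn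
    have e2 : ph (insert (s + 1) (Icc 3 s)) = s * ph (Icc 3 s) := prod_insert hn
    rw [e1, e2]
    calc 2 * ((s + 1) * pr (Icc 3 s)) = (s + 1) * (2 * pr (Icc 3 s)) := by ring
      _ = (s + 1) * (s * ph (Icc 3 s)) := by rw [ih]

/-- numbers in `[3, s]` -/
theorem small_part {s : ℕ} (hs : 3 ≤ s) {T : Finset ℕ} (hT : ∀ p ∈ T, 3 ≤ p ∧ p ≤ s) :
    2 * pr T ≤ s * ph T := by
  have hsub : T ⊆ Icc 3 s := fun p hp => mem_Icc.2 (hT p hp)
  have e1 : pr (Icc 3 s) = pr T * pr (Icc 3 s \ T) := by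
    rw [← pr_union disjoint_sdiff, union_sdiff_of_subset hsub]
  have e2 : ph (Icc 3 s) = ph T * ph (Icc 3 s \ T) := by
    rw [← ph_union disjoint_sdiff, union_sdiff_of_subset hsub]
  have h1 := Icc_eq s hs
  rw [e1, e2] at h1
  have h3 : ∀ p ∈ Icc 3 s \ T, 3 ≤ p := fun p hp => (mem_Icc.1 (mem_sdiff.1 hp).1).1
  have h4 := ph_pos h3
  have h5 : ph (Icc 3 s \ T) ≤ pr (Icc 3 s \ T) := prod_le_prod' fun p _ => Nat.sub_le p 1
  have h6 : 2 * pr T * ph (Icc 3 s \ T) ≤ s * ph T * ph (Icc 3 s \ T) := by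
    calc 2 * pr T * ph (Icc 3 s \ T) ≤ 2 * pr T * pr (Icc 3 s \ T) := Nat.mul_le_mul_left _ h5
      _ = 2 * (pr T * pr (Icc 3 s \ T)) := by ring
      _ = s * (ph T * ph (Icc 3 s \ T)) := h1
      _ = _ := by ring
  exact Nat.le_of_mul_le_mul_right h6 h4

theorem large_one {s p : ℕ} (hs : 3 ≤ s) (hp : s < p) : p ^ s ≤ (p - 1) ^ (s + 1) := by
  obtain ⟨q, rfl⟩ : ∃ q, p = q + 1 := ⟨p - 1, by omega⟩
  rw [Nat.add_sub_cancel]
  have hq : s ≤ q := by omega
  have hq0 : (0 : ℝ) < q := by exact_mod_cast (by omega : 0 < q)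
  have h1 : (1 + 1 / (q : ℝ)) ^ s ≤ 3 := by
    calc (1 + 1 / (q : ℝ)) ^ s ≤ (Real.exp (1 / q)) ^ s := by
          apply pow_le_pow_left₀ (by positivity)
          have := Real.add_one_le_exp (1 / (q : ℝ))
          linarith
      _ = Real.exp (s * (1 / q)) := by rw [← Real.exp_nat_mul]
      _ ≤ Real.exp 1 := by
          apply Real.exp_le_exp.2
          rw [mul_one_div, div_le_one hq0]
          exact_mod_cast hq
      _ ≤ 3 := by have := Real.exp_one_lt_d9; linarith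
  have h2 : ((q : ℝ) + 1) ^ s ≤ (q : ℝ) ^ (s + 1) := by
    have e : (q : ℝ) + 1 = q * (1 + 1 / q) := by field_simp
    rw [e, mul_pow, pow_succ]
    have h3 : (3 : ℝ) ≤ q := by exact_mod_cast (by omega : 3 ≤ q)
    exact mul_le_mul_of_nonneg_left (le_trans h1 h3) (by positivity)
  exact_mod_cast h2

/-- for odd primes and every exponent `s ≥ 3` -/
theorem powers {S : Finset ℕ} (hS : ∀ p ∈ S, 3 ≤ p) {s : ℕ} (hs : 3 ≤ s) :
    (2 * pr S) ^ s ≤ s ^ s * ph S ^ (s + 1) := by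
  classical
  have e : S = S.filter (fun p => p ≤ s) ∪ S.filter (fun p => ¬ p ≤ s) := by
    rw [filter_union_filter_not_eq]
  have hd : Disjoint (S.filter (fun p => p ≤ s)) (S.filter (fun p => ¬ p ≤ s)) :=
    disjoint_filter_filter_not _ _ _
  have h1 : 2 * pr (S.filter (fun p => p ≤ s)) ≤ s * ph (S.filter (fun p => p ≤ s)) :=
    small_part hs (fun p hp => ⟨hS p (mem_filter.1 hp).1, (mem_filter.1 hp).2⟩)
  have h2 : pr (S.filter (fun p => ¬ p ≤ s)) ^ s ≤ ph (S.filter (fun p => ¬ p ≤ s)) ^ (s + 1) := by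
    unfold pr ph
    rw [← prod_pow, ← prod_pow]
    apply prod_le_prod'
    intro p hp
    rw [mem_filter] at hp
    exact large_one hs (by omega)
  have h3 : 1 ≤ ph (S.filter (fun p => p ≤ s)) := ph_pos (fun p hp => hS p (mem_filter.1 hp).1)
  rw [e, pr_union hd, ph_union hd]
  set a := pr (S.filter (fun p => p ≤ s))
  set b := pr (S.filter (fun p => ¬ p ≤ s))
  set c := ph (S.filter (fun p => p ≤ s))
  set d := ph (S.filter (fun p => ¬ p ≤ s))
  calc (2 * (a * b)) ^ s = (2 * a) ^ s * b ^ s := by rw [← mul_pow]; ring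
    _ ≤ (s * c) ^ s * d ^ (s + 1) := Nat.mul_le_mul (Nat.pow_le_pow_left h1 s) h2
    _ = s ^ s * (c ^ s * d ^ (s + 1)) := by rw [mul_pow]; ring
    _ ≤ s ^ s * (c ^ (s + 1) * d ^ (s + 1)) := by
        gcongr
        exact Nat.le_succ s
    _ = s ^ s * (c * d) ^ (s + 1) := by rw [mul_pow]

end Pool.Agent.U237.LehRep
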