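import Pool.Agent.U237.LehRep3

set_option autoImplicit false

/-!
# The absolute bound, and three different primes
-/

namespace Pool.Agent.U237.LehRep

open Finset

namespace Pair

variable {A B C : Finset ℕ} {K L : ℕ} (h : Pair A B C K L)

include h

theorem index_K : 2 * K * ph C < ((A ∪ B).card + 2) * pr C := by
  have h1 := ratio_card A h.A3
  have h2 : A.card ≤ (A ∪ B).card := card_le_card subset_union_left
  have h3 := h.eA
  have hA := ph_pos h.A3
  have hC := pr_pos h.C3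
  have h4 : 2 * K * ph C * ph A < ((A ∪ B).card + 2) * pr C * ph A := by
    calc 2 * K * ph C * ph A = 2 * (K * ph C * ph A) := by ring
      _ < 2 * (pr C * pr A) := by omega
      _ = pr C * (2 * pr A) := by ring
      _ ≤ pr C * (((A ∪ B).card + 2) * ph A) := by
          apply Nat.mul_le_mul_left
          exact le_trans h1 (Nat.mul_le_mul_right _ (by omega))
      _ = _ := by ring
  exact lt_of_mul_lt_mul_right h4 (Nat.zero_le _)

theorem index_L : 2 * L * ph C < ((A ∪ B).card + 2) * pr C := by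
  have h1 := ratio_card B h.B3
  have h2 : B.card ≤ (A ∪ B).card := card_le_card subset_union_right
  have h3 := h.eB
  have hB := ph_pos h.B3
  have hC := pr_pos h.C3
  have h4 : 2 * L * ph C * ph B < ((A ∪ B).card + 2) * pr C * ph B := by
    calc 2 * L * ph C * ph B = 2 * (L * ph C * ph B) := by ring
      _ < 2 * (pr C * pr B) := by omega
      _ = pr C * (2 * pr B) := by ring
      _ ≤ pr C * (((A ∪ B).card + 2) * ph B) := by
          apply Nat.mul_le_mul_left
          exact le_trans h1 (Nat.mul_le_mul_right _ (by omega))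
      _ = _ := by ring
  exact lt_of_mul_lt_mul_right h4 (Nat.zero_le _)

/-- **the absolute bound** -/
theorem absolute (hKL : K ≠ L) :
    ph C < ((A ∪ B).card * ((A ∪ B).card + 2) * 2 ^ (A ∪ B).card) ^ (2 ^ ((A ∪ B).card + 1)) := by
  have h1 := h.repulsion_ne hKL
  have h2 : 2 * (max K L) * ph C < ((A ∪ B).card + 2) * pr C := by
    rcases max_choice K L with e | e <;> rw [e]
    · exact h.index_K
    · exact h.index_L
  have hr := h.cardU_pos
  have hK := h.K_pos
  have hm : 1 ≤ max K L := le_trans hK (le_max_left _ _)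
  have hC := ph_pos h.C3
  set r := (A ∪ B).card with hrdef
  set m := max K L with hmdef
  set φ := ph C with hφ
  have h2r : 2 ≤ 2 ^ r := by
    calc 2 = 2 ^ 1 := rfl
      _ ≤ 2 ^ r := Nat.pow_le_pow_right (by norm_num) hr
  have hs4 : 4 ≤ 2 ^ (r + 1) := by rw [pow_succ]; omega
  set s := 2 ^ (r + 1) with hsdef
  have hp := powers (S := C) h.C3 (s := s) (by omega)
  -- first inequality
  have h3 : (4 * m) ^ s < ((r + 2) * s) ^ s * φ := by
    have h4 : 4 * m * φ < (r + 2) * (2 * pr C) := by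
      calc 4 * m * φ = 2 * (2 * m * φ) := by ring
        _ < 2 * ((r + 2) * pr C) := by omega
        _ = _ := by ring
    have h5 : (4 * m * φ) ^ s < ((r + 2) * (2 * pr C)) ^ s :=
      Nat.pow_lt_pow_left h4 (by omega)
    have h6 : ((r + 2) * (2 * pr C)) ^ s ≤ ((r + 2) * s) ^ s * φ ^ (s + 1) := by
      calc ((r + 2) * (2 * pr C)) ^ s = (r + 2) ^ s * (2 * pr C) ^ s := by rw [mul_pow]
        _ ≤ (r + 2) ^ s * (s ^ s * φ ^ (s + 1)) := Nat.mul_le_mul_left _ hp
        _ = _ := by rw [mul_pow]; ring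
    have h7 : (4 * m) ^ s * φ ^ s < ((r + 2) * s) ^ s * φ * φ ^ s := by
      calc (4 * m) ^ s * φ ^ s = (4 * m * φ) ^ s := by rw [← mul_pow]
        _ < ((r + 2) * s) ^ s * φ ^ (s + 1) := lt_of_lt_of_le h5 h6
        _ = _ := by rw [pow_succ]; ring
    exact lt_of_mul_lt_mul_right h7 (Nat.zero_le _)
  -- second inequality
  have hc2 : 2 ≤ 2 * m * r := by
    calc 2 = 2 * 1 * 1 := rfl
      _ ≤ 2 * m * r := Nat.mul_le_mul (Nat.mul_le_mul_left _ hm) hr
  have h4 : φ * φ < (2 * m * r) ^ s := by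
    set c := 2 * m * r with hcdef
    calc φ * φ < (2 * c ^ (2 ^ r - 1)) * (2 * c ^ (2 ^ r - 1)) :=
          Nat.mul_lt_mul_of_lt_of_lt h1 h1
      _ = 4 * c ^ ((2 ^ r - 1) + (2 ^ r - 1)) := by rw [pow_add]; ring
      _ ≤ c ^ 2 * c ^ ((2 ^ r - 1) + (2 ^ r - 1)) := by
          apply Nat.mul_le_mul_right
          nlinarith
      _ = c ^ s := by
          rw [← pow_add]
          congr 1
          rw [hsdef, pow_succ]
          omega
  -- conclusion
  have h5 : 2 ^ s * φ * φ < 2 ^ s * (r * (r + 2) * 2 ^ r) ^ s * φ := by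
    calc 2 ^ s * φ * φ = 2 ^ s * (φ * φ) := by ring
      _ < 2 ^ s * (2 * m * r) ^ s := Nat.mul_lt_mul_of_pos_left h4 (by positivity)
      _ = r ^ s * (4 * m) ^ s := by rw [← mul_pow, ← mul_pow]; congr 1; ring
      _ ≤ r ^ s * (((r + 2) * s) ^ s * φ) := Nat.mul_le_mul_left _ h3.le
      _ = (r * ((r + 2) * s)) ^ s * φ := by rw [mul_pow r]; ring
      _ = 2 ^ s * (r * (r + 2) * 2 ^ r) ^ s * φ := by
          have e : r * ((r + 2) * s) = 2 * (r * (r + 2) * 2 ^ r) := by
            rw [hsdef, pow_succ]; ring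
          rw [e, mul_pow]
  have h6 : 2 ^ s * φ < 2 ^ s * (r * (r + 2) * 2 ^ r) ^ s :=
    lt_of_mul_lt_mul_right h5 (Nat.zero_le _)
  exact lt_of_mul_lt_mul_left h6 (Nat.zero_le _)

/-- the totient of the common part is even -/
theorem two_dvd (hC : C.Nonempty) : 2 ∣ ph C := by
  obtain ⟨p, hp⟩ := hC
  have h1 : (p - 1) ∣ ph C := dvd_prod_of_mem (fun p => p - 1) hp
  have h2 := h.pC p hp
  have h3 : Odd p := h2.1.odd_of_ne_two (by omega)
  obtain ⟨k, hk⟩ := h3
  exact dvd_trans ⟨k, by omega⟩ h1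

end Pair

/-- case of one further prime -/
theorem case_one {φ K L p c : ℕ} (hφ : 0 < φ) (hL : 2 ≤ L) (hp : 3 ≤ p)
    (eA : K * φ * (p - 1) + 1 = c * p) (eB : L * φ + 1 = c)
    (hten : 8 ^ 11 * c ^ 10 ≤ 15 ^ 10 * φ ^ 11) : False := by
  obtain ⟨x, rfl⟩ : ∃ x, p = x + 1 := ⟨p - 1, by omega⟩
  rw [Nat.add_sub_cancel] at eA
  subst eB
  -- K φ x + 1 = (L φ + 1) (x + 1)
  have h1 : (K : ℤ) * φ * x + 1 = (L * φ + 1) * (x + 1) := by exact_mod_cast eA
  have h2 : (φ : ℤ) * (K * x - L * (x + 1)) = x := by linarith [h1, mul_comm (φ : ℤ) (K * x)]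
  set t : ℤ := K * x - L * (x + 1) with ht
  have hφ' : (0 : ℤ) < φ := by exact_mod_cast hφ
  have hx0 : (0 : ℤ) < x := by exact_mod_cast (by omega : 0 < x)
  have ht0 : 0 < t := by
    by_contra hcon
    push Not at hcon
    nlinarith
  -- (K - L) x = L + t
  have h3 : ((K : ℤ) - L) * x = L + t := by rw [ht]; ring
  have hL0 : (0 : ℤ) < L := by exact_mod_cast (by omega : 0 < L)
  have h4 : (1 : ℤ) ≤ (K : ℤ) - L := by
    by_contra hcon
    push Not at hcon
    nlinarith
  have h5 : (φ : ℤ) ≤ L + 1 := by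
    have h6 : (x : ℤ) ≤ L + t := by nlinarith
    rw [← h2] at h6
    -- φ t ≤ L + t
    by_contra hcon
    push Not at hcon
    nlinarith
  have h6 : φ ≤ L + 1 := by exact_mod_cast h5
  have h7 : 8 ^ 11 * (L * φ) ^ 10 ≤ 15 ^ 10 * φ ^ 11 :=
    le_trans (Nat.mul_le_mul_left _ (Nat.pow_le_pow_left (by omega) 10)) hten
  have h8 : 8 ^ 11 * L ^ 10 ≤ 15 ^ 10 * φ := by
    have : 8 ^ 11 * L ^ 10 * φ ^ 10 ≤ 15 ^ 10 * φ * φ ^ 10 := by
      calc 8 ^ 11 * L ^ 10 * φ ^ 10 = 8 ^ 11 * (L * φ) ^ 10 := by rw [mul_pow]; ring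
        _ ≤ 15 ^ 10 * φ ^ 11 := h7
        _ = _ := by ring
    exact Nat.le_of_mul_le_mul_right this (by positivity)
  have h9 : 2 ^ 9 * L ≤ L ^ 10 := by
    calc 2 ^ 9 * L ≤ L ^ 9 * L := Nat.mul_le_mul_right _ (Nat.pow_le_pow_left hL 9)
      _ = L ^ 10 := by ring
  omega

end Pool.Agent.U237.LehRep
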