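import Pool.Agent.U237.LehRep4

set_option autoImplicit false

/-!
# Two solutions differ in at least three primes
-/

namespace Pool.Agent.U237.LehRep

open Finset

/-- case of one further prime on each side -/
theorem case_mixed {φ K L p q c : ℕ} (hφ : 2 ≤ φ) (hK : 2 ≤ K) (hqp : q < p) (hq : 3 ≤ q)
    (eA : K * φ * (p - 1) + 1 = c * p) (eB : L * φ * (q - 1) + 1 = c * q)
    (hten : 8 ^ 11 * (c * p) ^ 10 ≤ 15 ^ 10 * (φ * (p - 1)) ^ 11) : False := by
  obtain ⟨x, rfl⟩ : ∃ x, p = x + 1 := ⟨p - 1, by omega⟩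
  obtain ⟨y, rfl⟩ : ∃ y, q = y + 1 := ⟨q - 1, by omega⟩
  rw [Nat.add_sub_cancel] at eA eB hten
  have hyx : (y : ℤ) + 1 ≤ x := by exact_mod_cast (by omega : y + 1 ≤ x)
  have hy2 : (2 : ℤ) ≤ y := by exact_mod_cast (by omega : 2 ≤ y)
  have hφ' : (2 : ℤ) ≤ φ := by exact_mod_cast hφ
  have hK' : (2 : ℤ) ≤ K := by exact_mod_cast hK
  have a1 : (K : ℤ) * φ * x + 1 = c * (x + 1) := by exact_mod_cast eA
  have a2 : (L : ℤ) * φ * y + 1 = c * (y + 1) := by exact_mod_cast eB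
  set t : ℤ := K * x * (y + 1) - L * y * (x + 1) with ht
  have h1 : (φ : ℤ) * t = x - y := by
    have : (φ : ℤ) * t = (K * φ * x + 1) * (y + 1) - (L * φ * y + 1) * (x + 1) + x - y := by
      rw [ht]; ring
    rw [this, a1, a2]; ring
  have ht0 : 0 < t := by
    by_contra hcon
    push Not at hcon
    nlinarith
  have h2t : 2 * t ≤ x - y := by nlinarith
  have hφx : (φ : ℤ) ≤ x := by nlinarith
  -- (x + 1) D = t + K (y + 1)
  have hD : ((x : ℤ) + 1) * (K * (y + 1) - L * y) = t + K * (y + 1) := by rw [ht]; ring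
  rcases lt_trichotomy L K with hlt | heq | hgt
  · have hL' : (L : ℤ) + 1 ≤ K := by exact_mod_cast hlt
    have h3 : (K : ℤ) + y ≤ K * (y + 1) - L * y := by nlinarith
    have h4 : ((x : ℤ) + 1) * (K + y) ≤ t + K * (y + 1) := by
      rw [← hD]
      exact mul_le_mul_of_nonneg_left h3 (by linarith)
    nlinarith
  · subst heq
    have h3 : (L : ℤ) * (x - y) = t := by
      have : (x + 1 : ℤ) * (L * (y + 1) - L * y) = (x + 1) * L := by ring
      rw [this] at hD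
      linarith
    rw [← h1] at h3
    nlinarith
  · have hL' : (K : ℤ) + 1 ≤ L := by exact_mod_cast hgt
    have h3 : (1 : ℤ) ≤ K * (y + 1) - L * y := by
      by_contra hcon
      push Not at hcon
      have : (K : ℤ) * (y + 1) - L * y ≤ 0 := by linarith
      have h5 : ((x : ℤ) + 1) * (K * (y + 1) - L * y) ≤ 0 :=
        mul_nonpos_of_nonneg_of_nonpos (by linarith) this
      rw [hD] at h5
      nlinarith
    have h4 : (y : ℤ) + 1 ≤ K := by nlinarith
    have h5 : (x : ℤ) + 1 ≤ t + K * (y + 1) := by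
      rw [← hD]
      nlinarith
    have h6 : (x : ℤ) + 1 ≤ 2 * (K * K) := by nlinarith
    have hK3 : 3 ≤ K := by
      have : (3 : ℤ) ≤ K := by linarith
      exact_mod_cast this
    have h6' : x + 1 ≤ 2 * (K * K) := by exact_mod_cast h6
    have hφx' : φ ≤ x := by exact_mod_cast hφx
    have h7 : 8 ^ 11 * (K * (φ * x)) ^ 10 ≤ 15 ^ 10 * (φ * x) ^ 11 := by
      refine le_trans (Nat.mul_le_mul_left _ (Nat.pow_le_pow_left ?_ 10)) hten
      rw [← eA, ← mul_assoc]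
      omega
    have hpos : 0 < φ * x := Nat.mul_pos (by omega) (by omega)
    have h8 : 8 ^ 11 * K ^ 10 ≤ 15 ^ 10 * (φ * x) := by
      have : 8 ^ 11 * K ^ 10 * (φ * x) ^ 10 ≤ 15 ^ 10 * (φ * x) * (φ * x) ^ 10 := by
        calc 8 ^ 11 * K ^ 10 * (φ * x) ^ 10 = 8 ^ 11 * (K * (φ * x)) ^ 10 := by
              rw [mul_pow K]; ring
          _ ≤ 15 ^ 10 * (φ * x) ^ 11 := h7
          _ = _ := by ring
      exact Nat.le_of_mul_le_mul_right this (by positivity)
    have h9 : φ * x ≤ 4 * K ^ 4 := by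
      calc φ * x ≤ (2 * (K * K)) * (2 * (K * K)) := Nat.mul_le_mul (by omega) (by omega)
        _ = 4 * K ^ 4 := by ring
    have h10 : 8 ^ 11 * K ^ 6 ≤ 15 ^ 10 * 4 := by
      have : 8 ^ 11 * K ^ 6 * K ^ 4 ≤ 15 ^ 10 * 4 * K ^ 4 := by
        calc 8 ^ 11 * K ^ 6 * K ^ 4 = 8 ^ 11 * K ^ 10 := by ring
          _ ≤ 15 ^ 10 * (φ * x) := h8
          _ ≤ 15 ^ 10 * (4 * K ^ 4) := Nat.mul_le_mul_left _ h9
          _ = _ := by ring
      exact Nat.le_of_mul_le_mul_right this (by positivity)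
    have h11 : 3 ^ 6 ≤ K ^ 6 := Nat.pow_le_pow_left hK3 6
    omega

/-- case of two further primes -/
theorem case_chain {φ K k p q c : ℕ} (h2 : 2 ∣ φ) (hφ : 0 < φ) (hk : 2 ≤ k) (hp : p.Prime)
    (hq : q.Prime) (hp3 : 3 ≤ p) (hpq : p < q)
    (eA : K * φ * ((p - 1) * (q - 1)) + 1 = c * (p * q)) (eB : k * φ + 1 = c)
    (hten : 8 ^ 11 * c ^ 10 ≤ 15 ^ 10 * φ ^ 11) : False := by
  have hq5 : 5 ≤ q := by
    by_contra hcon
    have : q = 4 := by omega
    rw [this] at hq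
    exact absurd hq (by norm_num)
  -- the size of φ
  have h7 : 8 ^ 11 * (k * φ) ^ 10 ≤ 15 ^ 10 * φ ^ 11 :=
    le_trans (Nat.mul_le_mul_left _ (Nat.pow_le_pow_left (by omega) 10)) hten
  have h8 : 8 ^ 11 * k ^ 10 ≤ 15 ^ 10 * φ := by
    have : 8 ^ 11 * k ^ 10 * φ ^ 10 ≤ 15 ^ 10 * φ * φ ^ 10 := by
      calc 8 ^ 11 * k ^ 10 * φ ^ 10 = 8 ^ 11 * (k * φ) ^ 10 := by rw [mul_pow]; ring
        _ ≤ 15 ^ 10 * φ ^ 11 := h7
        _ = _ := by ring
    exact Nat.le_of_mul_le_mul_right this (by positivity)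
  have h9 : 2 ^ 9 * k ≤ k ^ 10 := by
    calc 2 ^ 9 * k ≤ k ^ 9 * k := Nat.mul_le_mul_right _ (Nat.pow_le_pow_left hk 9)
      _ = k ^ 10 := by ring
  have h16 : 16 ≤ φ := by omega
  have h2k : 2 * k + 4 ≤ φ := by omega
  subst eB
  obtain ⟨x, rfl⟩ : ∃ x, p = x + 1 := ⟨p - 1, by omega⟩
  obtain ⟨y, rfl⟩ : ∃ y, q = y + 1 := ⟨q - 1, by omega⟩
  rw [Nat.add_sub_cancel, Nat.add_sub_cancel] at eA
  have a1 : (K : ℤ) * φ * (x * y) + 1 = (k * φ + 1) * ((x + 1) * (y + 1)) := by exact_mod_cast eA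
  have hx2 : (2 : ℤ) ≤ x := by exact_mod_cast (by omega : 2 ≤ x)
  have hxy : (x : ℤ) + 1 ≤ y := by exact_mod_cast (by omega : x + 1 ≤ y)
  have hy4 : (4 : ℤ) ≤ y := by exact_mod_cast (by omega : 4 ≤ y)
  have hφ16 : (16 : ℤ) ≤ φ := by exact_mod_cast h16
  have hφ2k : 2 * (k : ℤ) + 4 ≤ φ := by exact_mod_cast h2k
  have hk' : (2 : ℤ) ≤ k := by exact_mod_cast hk
  set t : ℤ := K * (x * y) - k * ((x + 1) * (y + 1)) with ht
  have h1 : (φ : ℤ) * t = (x + 1) * (y + 1) - 1 := by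
    have : (φ : ℤ) * t = (K * φ * (x * y) + 1) - (k * φ) * ((x + 1) * (y + 1)) - 1 := by
      rw [ht]; ring
    rw [this, a1]; ring
  have hxy0 : (0 : ℤ) < x * y := by positivity
  have ht0 : 0 < t := by
    by_contra hcon
    push Not at hcon
    nlinarith
  -- K ≥ k + 1
  have hKk : (k : ℤ) + 1 ≤ K := by
    by_contra hcon
    push Not at hcon
    have : (K : ℤ) ≤ k := by linarith
    have h3 : (K : ℤ) * (x * y) ≤ k * (x * y) := mul_le_mul_of_nonneg_right this hxy0.le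
    nlinarith
  -- x ≤ 2 k + 1
  have hxk : (x : ℤ) ≤ 2 * k + 1 := by
    by_contra hcon
    push Not at hcon
    obtain ⟨u, hu⟩ : ∃ u : ℤ, (x : ℤ) = 2 * k + 2 + u := ⟨x - 2 * k - 2, by ring⟩
    obtain ⟨v, hv⟩ : ∃ v : ℤ, (y : ℤ) = x + 1 + v := ⟨y - x - 1, by ring⟩
    obtain ⟨w, hw⟩ : ∃ w : ℤ, (φ : ℤ) = 2 * k + 4 + w := ⟨φ - 2 * k - 4, by ring⟩
    have hu0 : 0 ≤ u := by linarith
    have hv0 : 0 ≤ v := by linarith
    have hw0 : 0 ≤ w := by linarith
    have h3 : (k + 1) * ((x : ℤ) * y) ≤ K * (x * y) := mul_le_mul_of_nonneg_right hKk hxy0.le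
    have h4 : (φ : ℤ) * ((k + 1) * ((x : ℤ) * y) - k * ((x + 1) * (y + 1))) ≤
        (x + 1) * (y + 1) - 1 := by
      rw [← h1]
      apply mul_le_mul_of_nonneg_left _ (by linarith)
      rw [ht]
      linarith
    rw [hw, hv, hu] at h4
    have hk0 : (0 : ℤ) ≤ k := by linarith
    have h5 : 0 ≤ (k : ℤ) * u := by positivity
    have h6 : 0 ≤ (k : ℤ) * v := by positivity
    have h7 : 0 ≤ (k : ℤ) * w := by positivity
    have : (0 : ℤ) < (2 * k + 4 + w) * ((k + 1) * ((2 * k + 2 + u) * (2 * k + 2 + u + 1 + v)) -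
        k * ((2 * k + 2 + u + 1) * (2 * k + 2 + u + 1 + v + 1))) -
        ((2 * k + 2 + u + 1) * (2 * k + 2 + u + 1 + v + 1) - 1) := by
      ring_nf
      positivity
    linarith
  -- K ≤ 2 k - 1
  have hK2 : (K : ℤ) + 1 ≤ 2 * k := by
    by_contra hcon
    push Not at hcon
    have hK3 : 2 * (k : ℤ) ≤ K := by linarith
    have h3 : 2 * (k : ℤ) * (x * y) ≤ K * (x * y) := mul_le_mul_of_nonneg_right hK3 hxy0.le
    have h4 : 16 * t ≤ (x + 1) * (y + 1) - 1 := by rw [← h1]; nlinarith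
    have h5 : 8 * (((x : ℤ) + 1) * (y + 1)) ≤ 15 * (x * y) := by nlinarith
    have h6 : 16 * (2 * (k : ℤ) * (x * y)) ≤ 16 * (k * ((x + 1) * (y + 1))) + 16 * t := by
      rw [ht]; linarith
    nlinarith
  -- D
  have hD : ((y : ℤ) + 1) * (K * x - k * (x + 1)) = t + K * x := by rw [ht]; ring
  have hKx : (0 : ℤ) < K * x := mul_pos (by linarith) (by linarith)
  have hD1 : (1 : ℤ) ≤ K * x - k * (x + 1) := by
    by_contra hcon
    push Not at hcon
    have : (K : ℤ) * x - k * (x + 1) ≤ 0 := by linarith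
    have h5 : ((y : ℤ) + 1) * (K * x - k * (x + 1)) ≤ 0 :=
      mul_nonpos_of_nonneg_of_nonpos (by linarith) this
    rw [hD] at h5
    linarith
  rcases Nat.lt_or_ge k 3 with hk3 | hk3
  · have hk2 : k = 2 := by omega
    subst hk2
    have hK3 : K = 3 := by
      have h3 : 3 ≤ K := by
        have : (3 : ℤ) ≤ K := by push_cast at hKk; linarith
        exact_mod_cast this
      have h4 : K ≤ 3 := by
        have : (K : ℤ) ≤ 3 := by push_cast at hK2; linarith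
        exact_mod_cast this
      omega
    subst hK3
    have hx5 : x ≤ 5 := by
      have : (x : ℤ) ≤ 5 := by push_cast at hxk; linarith
      exact_mod_cast this
    have hx2' : 2 ≤ x := by omega
    interval_cases x
    · norm_num at hD1
    · exact absurd hp (by norm_num)
    · -- x = 4, p = 5
      push_cast at hD h1 ht
      have h3 : t = 2 * y - 10 := by linarith
      have h4 : (φ : ℤ) * (2 * y - 10) = 5 * (y + 1) - 1 := by
        rw [← h3]; linarith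
      have h5 : (y : ℤ) ≤ 6 := by nlinarith
      have h6 : y ≤ 6 := by exact_mod_cast h5
      have h7 : 5 ≤ y := by omega
      interval_cases y
      · exact absurd hq (by norm_num)
      · push_cast at h4
        have : φ = 17 := by
          have : (φ : ℤ) = 17 := by linarith
          exact_mod_cast this
        omega
    · exact absurd hp (by norm_num)
  · have h9' : 3 ^ 9 * k ≤ k ^ 10 := by
      calc 3 ^ 9 * k ≤ k ^ 9 * k := Nat.mul_le_mul_right _ (Nat.pow_le_pow_left hk3 9)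
        _ = k ^ 10 := by ring
    have hφ4 : 4 * k + 4 ≤ φ := by omega
    have hφ4' : 4 * (k : ℤ) + 4 ≤ φ := by exact_mod_cast hφ4
    have h2x : 2 * ((x : ℤ) + 1) ≤ φ := by linarith
    have h2t : 2 * t ≤ y := by
      have h3 : 2 * (x + 1) * t ≤ φ * t := mul_le_mul_of_nonneg_right h2x ht0.le
      rw [h1] at h3
      by_contra hcon
      push Not at hcon
      nlinarith
    have hy : (y : ℤ) + 1 ≤ 2 * (K * x) := by
      have h3 : ((y : ℤ) + 1) * 1 ≤ (y + 1) * (K * x - k * (x + 1)) :=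
        mul_le_mul_of_nonneg_left hD1 (by linarith)
      rw [hD] at h3
      linarith
    have hKx2 : (K : ℤ) * x ≤ (2 * k - 1) * (2 * k + 1) :=
      mul_le_mul (by linarith) hxk (by linarith) (by linarith)
    have hy2 : (y : ℤ) + 1 ≤ 8 * k ^ 2 := by nlinarith
    have hφb : (φ : ℤ) ≤ (2 * k + 2) * (8 * k ^ 2) := by
      have h3 : (φ : ℤ) ≤ φ * t := by nlinarith
      rw [h1] at h3
      have h4 : ((x : ℤ) + 1) * (y + 1) ≤ (2 * k + 2) * (8 * k ^ 2) :=
        mul_le_mul (by linarith) hy2 (by linarith) (by linarith)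
      linarith
    have hφb' : φ ≤ (2 * k + 2) * (8 * k ^ 2) := by exact_mod_cast hφb
    have h10 : 8 ^ 11 * k ^ 8 ≤ 15 ^ 10 * (16 * (k + 1)) := by
      have : 8 ^ 11 * k ^ 8 * k ^ 2 ≤ 15 ^ 10 * (16 * (k + 1)) * k ^ 2 := by
        calc 8 ^ 11 * k ^ 8 * k ^ 2 = 8 ^ 11 * k ^ 10 := by ring
          _ ≤ 15 ^ 10 * φ := h8
          _ ≤ 15 ^ 10 * ((2 * k + 2) * (8 * k ^ 2)) := Nat.mul_le_mul_left _ hφb'
          _ = _ := by ring
      exact Nat.le_of_mul_le_mul_right this (by positivity)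
    have h11 : 3 ^ 7 * k ≤ k ^ 8 := by
      calc 3 ^ 7 * k ≤ k ^ 7 * k := Nat.mul_le_mul_right _ (Nat.pow_le_pow_left hk3 7)
        _ = k ^ 8 := by ring
    omega

end Pool.Agent.U237.LehRep
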