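import Pool.Agent.U237.LehRep5
import Pool.Agent.H95R2.Leh.FamLeh
import Pool.Agent.H95R2.Leh.Congr

set_option autoImplicit false

/-!
# Two solutions differ in at least three primes, and the passage to Lehmer numbers
-/

namespace Pool.Agent.U237.LehRep

open Finset

namespace Pair

variable {A B C : Finset ℕ} {K L : ℕ} (h : Pair A B C K L)

include h

/-- if the smaller number divides the larger one then the index of the larger one is larger -/
theorem index_lt (hB : B = ∅) : L < K := by
  subst hB
  have h1 := h.X_pos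
  have e1 : pr (∅ : Finset ℕ) = 1 := by simp [pr]
  have e2 : ph (∅ : Finset ℕ) = 1 := by simp [ph]
  rw [e1, e2, mul_one, mul_one] at h1
  have h2 : ph A ≤ pr A := prod_le_prod' fun p _ => Nat.sub_le p 1
  by_contra hcon
  push Not at hcon
  have : K * ph A ≤ L * pr A := Nat.mul_le_mul hcon h2
  omega

/-- at least three primes divide exactly one of the two numbers -/
theorem card_ge_three (hK : 2 ≤ K) (hL : 2 ≤ L) : 3 ≤ (A ∪ B).card := by
  by_contra hcon
  push Not at hcon
  rw [card_union_of_disjoint h.AB] at hcon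
  have hA1 : 1 ≤ A.card := Finset.card_pos.2 h.A_nonempty
  have hφ := ph_pos h.C3
  have hph0 : ph (∅ : Finset ℕ) = 1 := by simp [ph]
  have hpr0 : pr (∅ : Finset ℕ) = 1 := by simp [pr]
  have eA := h.eA
  have eB := h.eB
  rcases Nat.lt_or_ge A.card 2 with hA | hA
  · -- one prime in `A`
    obtain ⟨p, hp⟩ := card_eq_one.1 (show A.card = 1 by omega)
    have hp3 : 3 ≤ p := h.A3 p (by rw [hp]; exact mem_singleton_self p)
    have hphA : ph A = p - 1 := by rw [hp]; simp [ph]
    have hprA : pr A = p := by rw [hp]; simp [pr]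
    rw [hphA, hprA] at eA
    rcases Nat.eq_zero_or_pos B.card with hB | hB
    · have hB0 : B = ∅ := card_eq_zero.1 hB
      rw [hB0, hph0, hpr0, mul_one, mul_one] at eB
      exact case_one hφ hL hp3 eA eB (ten h.pC)
    · obtain ⟨q, hq⟩ := card_eq_one.1 (show B.card = 1 by omega)
      have hq3 : 3 ≤ q := h.B3 q (by rw [hq]; exact mem_singleton_self q)
      have hphB : ph B = q - 1 := by rw [hq]; simp [ph]
      have hprB : pr B = q := by rw [hq]; simp [pr]
      have hlt := h.lt
      rw [hprA, hprB] at hlt
      rw [hphB, hprB] at eB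
      have hC : C.Nonempty := by
        rw [nonempty_iff_ne_empty]
        rintro rfl
        rw [hph0, hpr0, mul_one, one_mul] at eA
        have : 2 * (p - 1) ≤ K * (p - 1) := Nat.mul_le_mul_right _ hK
        omega
      have h2 := Nat.le_of_dvd hφ (h.two_dvd hC)
      have hten := ten (S := C ∪ A) (fun r hr => by
        rcases mem_union.1 hr with h1 | h1
        · exact h.pC r h1
        · exact h.pA r h1)
      rw [pr_union h.CA, ph_union h.CA, hphA, hprA] at hten
      exact case_mixed h2 hK hlt hq3 eA eB hten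
  · have hB0 : B = ∅ := card_eq_zero.1 (by omega)
    rw [hB0, hph0, hpr0, mul_one, mul_one] at eB
    have hC : C.Nonempty := by
      rw [nonempty_iff_ne_empty]
      rintro rfl
      rw [hph0, hpr0] at eB
      omega
    obtain ⟨p, q, hne, hpq⟩ := card_eq_two.1 (show A.card = 2 by omega)
    have hpA := h.pA p (by rw [hpq]; simp)
    have hqA := h.pA q (by rw [hpq]; simp)
    have hphA : ph A = (p - 1) * (q - 1) := by rw [hpq]; simp [ph, hne]
    have hprA : pr A = p * q := by rw [hpq]; simp [pr, hne]
    rw [hphA, hprA] at eA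
    rcases Nat.lt_or_ge p q with hlt | hge
    · exact case_chain (h.two_dvd hC) hφ hL hpA.1 hqA.1 hpA.2 hlt eA eB (ten h.pC)
    · have hlt : q < p := by omega
      rw [mul_comm (p - 1), mul_comm p] at eA
      exact case_chain (h.two_dvd hC) hφ hL hqA.1 hpA.1 hqA.2 hlt eA eB (ten h.pC)

end Pair

/-! ### Lehmer numbers -/

open Pool.Agent.H95R2.Leh

/-- the index `(n - 1) / φ(n)` -/
def idx (n : ℕ) : ℕ := (n - 1) / n.totient

/-- the primes which divide exactly one of the two numbers -/
def dif (M N : ℕ) : Finset ℕ := symmDiff M.primeFactors N.primeFactors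

theorem idx_spec {n : ℕ} (h : Leh n) : idx n * n.totient + 1 = n ∧ 2 ≤ idx n := by
  obtain ⟨k, hk2, hk, -⟩ := leh_k h
  have htot : 0 < n.totient := Nat.totient_pos.2 (by have := h.1; omega)
  have e : idx n = k := by
    unfold idx
    rw [hk, Nat.mul_div_cancel _ htot]
  rw [e, ← hk]
  have := h.1
  exact ⟨by omega, hk2⟩

theorem pr_primeFactors {n : ℕ} (h : Leh n) : pr n.primeFactors = n :=
  Nat.prod_primeFactors_of_squarefree (leh_basic h).1

theorem ph_primeFactors {n : ℕ} (h : Leh n) : ph n.primeFactors = n.totient := by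
  rw [Nat.totient_eq_prod_factorization (by have := h.1; omega), Finsupp.prod,
    Nat.support_factorization]
  unfold ph
  apply prod_congr rfl
  intro p hp
  rw [Nat.mem_primeFactors] at hp
  have h1 : n.factorization p = 1 := by
    have h2 := ((Nat.squarefree_iff_factorization_le_one (by have := h.1; omega)).1
      (leh_basic h).1) p
    have h3 := (hp.1.dvd_iff_one_le_factorization hp.2.2).1 hp.2.1
    omega
  rw [h1]
  simp

theorem leh_prime {n : ℕ} (h : Leh n) {p : ℕ} (hp : p ∈ n.primeFactors) : p.Prime ∧ 3 ≤ p := by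
  rw [Nat.mem_primeFactors] at hp
  refine ⟨hp.1, ?_⟩
  have h2 := hp.1.two_le
  rcases Nat.lt_or_ge 2 p with h3 | h3
  · exact h3
  · have h4 : p = 2 := by omega
    rw [h4] at hp
    have := (leh_basic h).2.1
    rw [← Nat.not_even_iff_odd] at this
    exact absurd (even_iff_two_dvd.2 hp.2.1) this

theorem pair_of {M N : ℕ} (hM : Leh M) (hN : Leh N) (hlt : M < N) :
    Pair (N.primeFactors \ M.primeFactors) (M.primeFactors \ N.primeFactors)
      (M.primeFactors ∩ N.primeFactors) (idx N) (idx M) := by
  have d1 : Disjoint (M.primeFactors ∩ N.primeFactors) (N.primeFactors \ M.primeFactors) := by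
    rw [disjoint_left]
    intro p hp hq
    exact (mem_sdiff.1 hq).2 (mem_inter.1 hp).1
  have d2 : Disjoint (M.primeFactors ∩ N.primeFactors) (M.primeFactors \ N.primeFactors) := by
    rw [disjoint_left]
    intro p hp hq
    exact (mem_sdiff.1 hq).2 (mem_inter.1 hp).2
  have u1 : (M.primeFactors ∩ N.primeFactors) ∪ (N.primeFactors \ M.primeFactors) =
      N.primeFactors := by
    ext p
    simp only [mem_union, mem_inter, mem_sdiff]
    tauto
  have u2 : (M.primeFactors ∩ N.primeFactors) ∪ (M.primeFactors \ N.primeFactors) =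
      M.primeFactors := by
    ext p
    simp only [mem_union, mem_inter, mem_sdiff]
    tauto
  have a1 : ph (M.primeFactors ∩ N.primeFactors) * ph (N.primeFactors \ M.primeFactors) =
      N.totient := by rw [← ph_union d1, u1, ph_primeFactors hN]
  have a2 : ph (M.primeFactors ∩ N.primeFactors) * ph (M.primeFactors \ N.primeFactors) =
      M.totient := by rw [← ph_union d2, u2, ph_primeFactors hM]
  have b1 : pr (M.primeFactors ∩ N.primeFactors) * pr (N.primeFactors \ M.primeFactors) =
      N := by rw [← pr_union d1, u1, pr_primeFactors hN]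
  have b2 : pr (M.primeFactors ∩ N.primeFactors) * pr (M.primeFactors \ N.primeFactors) =
      M := by rw [← pr_union d2, u2, pr_primeFactors hM]
  refine ⟨?_, ?_, ?_, ?_, d1, d2, ?_, ?_, ?_⟩
  · intro p hp
    exact leh_prime hN (mem_sdiff.1 hp).1
  · intro p hp
    exact leh_prime hM (mem_sdiff.1 hp).1
  · intro p hp
    exact leh_prime hM (mem_inter.1 hp).1
  · rw [disjoint_left]
    intro p hp hq
    exact (mem_sdiff.1 hp).2 (mem_sdiff.1 hq).1
  · rw [mul_assoc, a1, b1]
    exact (idx_spec hN).1
  · rw [mul_assoc, a2, b2]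
    exact (idx_spec hM).1
  · by_contra hcon
    push Not at hcon
    have := Nat.mul_le_mul_left (pr (M.primeFactors ∩ N.primeFactors)) hcon
    rw [b1, b2] at this
    omega

theorem dif_eq (M N : ℕ) :
    (N.primeFactors \ M.primeFactors) ∪ (M.primeFactors \ N.primeFactors) = dif M N := by
  unfold dif
  ext p
  simp only [mem_union, mem_sdiff, mem_symmDiff]
  tauto

theorem dif_comm (M N : ℕ) : dif M N = dif N M := by
  unfold dif
  exact symmDiff_comm _ _

/-- the totient of the greatest common divisor -/
theorem ph_inter {M N : ℕ} (hM : Leh M) (hN : Leh N) :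
    ph (M.primeFactors ∩ N.primeFactors) = (Nat.gcd M N).totient := by
  have hM0 : M ≠ 0 := by have := hM.1; omega
  have hN0 : N ≠ 0 := by have := hN.1; omega
  have hg : Squarefree (Nat.gcd M N) := (leh_basic hM).1.squarefree_of_dvd (Nat.gcd_dvd_left _ _)
  have hg0 : Nat.gcd M N ≠ 0 := hg.ne_zero
  rw [Nat.totient_eq_prod_factorization hg0, Finsupp.prod, Nat.support_factorization,
    Nat.primeFactors_gcd hM0 hN0]
  unfold ph
  apply prod_congr rfl
  intro p hp
  have hp' : p ∈ (Nat.gcd M N).primeFactors := by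
    rw [Nat.primeFactors_gcd hM0 hN0]; exact hp
  rw [Nat.mem_primeFactors] at hp'
  have h1 : (Nat.gcd M N).factorization p = 1 := by
    have h2 := ((Nat.squarefree_iff_factorization_le_one hg0).1 hg) p
    have h3 := (hp'.1.dvd_iff_one_le_factorization hp'.2.2).1 hp'.2.1
    omega
  rw [h1]
  simp

/-- the final statement for `M < N` -/
theorem main_lt {M N : ℕ} (hM : Leh M) (hN : Leh N) (hlt : M < N) :
    3 ≤ (dif M N).card ∧
    (M ∣ N → idx M < idx N) ∧
    (∀ p ∈ dif M N, (Nat.gcd M N).totient <
      2 * ((2 * max (idx M) (idx N) * (dif M N).card) ^ (2 ^ ((dif M N).card - 1) - 1) *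
        p ^ (2 ^ ((dif M N).card - 1)))) ∧
    (idx M ≠ idx N → (Nat.gcd M N).totient <
      ((dif M N).card * ((dif M N).card + 2) * 2 ^ (dif M N).card) ^
        (2 ^ ((dif M N).card + 1))) := by
  have h := pair_of hM hN hlt
  have hd := dif_eq M N
  refine ⟨?_, ?_, ?_, ?_⟩
  · rw [← hd]
    exact h.card_ge_three (idx_spec hN).2 (idx_spec hM).2
  · intro hdvd
    apply h.index_lt
    rw [sdiff_eq_empty_iff_subset]
    exact Nat.primeFactors_mono hdvd (by have := hN.1; omega)
  · intro p hp
    rw [← hd] at hp
    have h1 := h.repulsion hp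
    rw [hd, ph_inter hM hN, max_comm] at h1
    exact h1
  · intro hne
    have h1 := h.absolute hne.symm
    rw [hd, ph_inter hM hN] at h1
    exact h1

end Pool.Agent.U237.LehRep
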