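import Pool.Agent.U237.LehRep6

set_option autoImplicit false

/-!
# Finiteness of the pairs of solutions of different index which differ in `r` primes
-/

namespace Pool.Agent.U237.LehRep

open Finset Pool.Agent.H95R2.Leh

/-- the next prime of a solution is small -/
theorem next_le {A : Finset ℕ} (hA : ∀ p ∈ A, p.Prime ∧ 3 ≤ p) {K : ℕ} (hK : 2 ≤ K)
    (e : K * ph A + 1 = pr A) {S : Finset ℕ} (hS : S ⊆ A) (hSA : S ≠ A) {x : ℕ} (hx : 0 < x)
    (hSx : ∀ p ∈ A \ S, x ≤ p) : x ≤ K * A.card * pr S := by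
  have hA3 : ∀ p ∈ A, 3 ≤ p := fun p hp => (hA p hp).2
  have hS3 : ∀ p ∈ S, 3 ≤ p := fun p hp => hA3 p (hS hp)
  have hT3 : ∀ p ∈ A \ S, 3 ≤ p := fun p hp => hA3 p (mem_sdiff.1 hp).1
  have eA1 : pr A = pr S * pr (A \ S) := by
    rw [← pr_union disjoint_sdiff, union_sdiff_of_subset hS]
  have eA2 : ph A = ph S * ph (A \ S) := by
    rw [← ph_union disjoint_sdiff, union_sdiff_of_subset hS]
  have hS0 := pr_pos hS3
  have hT0 := ph_pos hT3
  have hTle : ph (A \ S) ≤ pr (A \ S) := prod_le_prod' fun p _ => Nat.sub_le p 1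
  -- nonvanishing
  have hne : K * ph S ≠ pr S := by
    by_cases hSe : S = ∅
    · rw [hSe]
      have e1 : ph (∅ : Finset ℕ) = 1 := by simp [ph]
      have e2 : pr (∅ : Finset ℕ) = 1 := by simp [pr]
      rw [e1, e2]; omega
    · have h1 := ne_of_cop (A := S) (B := ∅) (K := K) (L := 1) (fun p hp => (hA p (hS hp)).1)
        (by simp) (disjoint_empty_right _) (fun p hp hd => ?_) (by simp)
        (by rw [union_empty]; exact nonempty_iff_ne_empty.2 hSe)
      · simpa [ph, pr] using h1
      · have h1 : p ∣ K * ph A + 1 := by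
          rw [e]; exact dvd_prod_of_mem (fun p => p) (hS hp)
        have h3 : p ∣ 1 := (Nat.dvd_add_right (hd.mul_right _)).1 h1
        exact (hA p (hS hp)).1.one_lt.ne' (Nat.dvd_one.1 h3)
  rcases lt_or_gt_of_ne hne with hlt | hgt
  · exfalso
    -- `K φ(S) < S`
    obtain ⟨q, hq⟩ : (A \ S).Nonempty := by
      rw [nonempty_iff_ne_empty]
      intro h0
      exact hSA (Subset.antisymm hS (sdiff_eq_empty_iff_subset.1 h0))
    have h1 : 2 ≤ pr (A \ S) := by
      have h2 : q ∣ pr (A \ S) := dvd_prod_of_mem (fun p => p) hq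
      have h3 := Nat.le_of_dvd (pr_pos hT3) h2
      have := hT3 q hq
      omega
    have h2 : (K * ph S + 1) * pr (A \ S) ≤ pr S * pr (A \ S) := Nat.mul_le_mul_right _ hlt
    rw [← eA1, ← e, eA2] at h2
    have h3 : K * ph S * ph (A \ S) ≤ K * ph S * pr (A \ S) := Nat.mul_le_mul_left _ hTle
    nlinarith
  · -- `K φ(S) > S`
    have hS0' : (0 : ℝ) < pr S := by exact_mod_cast hS0
    have hA0' : (0 : ℝ) < pr A := by exact_mod_cast pr_pos hA3
    have hx0 : (0 : ℝ) < x := by exact_mod_cast hx
    obtain ⟨a1, a2⟩ := rho_sub hS hA3 hx0 (fun p hp => by exact_mod_cast hSx p hp)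
    have h1 : (K : ℝ) * rho A ≤ 1 := by
      unfold rho
      rw [← mul_div_assoc, div_le_one hA0']
      have : K * ph A ≤ pr A := by omega
      exact_mod_cast this
    have h2 : 1 + 1 / (pr S : ℝ) ≤ K * rho S := by
      unfold rho
      rw [← mul_div_assoc, ← sub_nonneg]
      have h3 : (pr S : ℝ) + 1 ≤ K * ph S := by exact_mod_cast hgt
      have e3 : (K : ℝ) * ph S / pr S - (1 + 1 / pr S) = (K * ph S - (pr S + 1)) / pr S := by
        field_simp
      rw [e3]
      exact div_nonneg (by linarith) hS0'.le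
    have h3 : ((A \ S).card : ℝ) / x ≤ (A.card : ℝ) / x := by
      have : ((A \ S).card : ℝ) ≤ A.card := by exact_mod_cast card_le_card sdiff_subset
      gcongr
    have hK0 : (0 : ℝ) ≤ K := by positivity
    have h4 : (K : ℝ) * rho S - K * rho A ≤ K * ((A.card : ℝ) / x) := by
      have : rho S - rho A ≤ (A.card : ℝ) / x := by linarith
      nlinarith [mul_le_mul_of_nonneg_left this hK0]
    have h5 : 1 / (pr S : ℝ) ≤ K * A.card / x := by
      rw [mul_div_assoc]; linarith
    rw [div_le_div_iff₀ hS0' hx0, one_mul] at h5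
    exact_mod_cast h5

/-- **Pomerance's bound** -/
theorem pomerance {A : Finset ℕ} (hA : ∀ p ∈ A, p.Prime ∧ 3 ≤ p) {K : ℕ} (hK : 2 ≤ K)
    (e : K * ph A + 1 = pr A) : pr A ≤ (K * A.card) ^ (2 ^ A.card - 1) := by
  have key : ∀ (i : ℕ) (S : Finset ℕ), S.card = i → S ⊆ A →
      (∀ x ∈ S, ∀ y ∈ A, y < x → y ∈ S) → pr S ≤ (K * A.card) ^ (2 ^ i - 1) := by
    intro i
    induction i with
    | zero =>
      intro S hS _ _
      rw [card_eq_zero.1 hS]
      simp [pr]
    | succ i ih =>
      intro S hS hSA hlow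
      have hne : S.Nonempty := Finset.card_pos.1 (by omega)
      set x := S.max' hne with hx
      have hxS : x ∈ S := max'_mem _ _
      have hx3 := (hA x (hSA hxS)).2
      have hcard : (S.erase x).card = i := by rw [card_erase_of_mem hxS]; omega
      have hsub : S.erase x ⊆ A := (erase_subset _ _).trans hSA
      have hlow' : ∀ y ∈ S.erase x, ∀ z ∈ A, z < y → z ∈ S.erase x := by
        intro y hy z hz hzy
        have hyS := mem_of_mem_erase hy
        have hyx : y ≤ x := le_max' _ _ hyS
        exact mem_erase.2 ⟨by omega, hlow y hyS z hz hzy⟩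
      have h1 := ih (S.erase x) hcard hsub hlow'
      have hstep : x ≤ K * A.card * pr (S.erase x) := by
        refine next_le hA hK e hsub ?_ (by omega) ?_
        · intro h0
          have : x ∈ S.erase x := by rw [h0]; exact hSA hxS
          exact (mem_erase.1 this).1 rfl
        · intro y hy
          rw [mem_sdiff, mem_erase] at hy
          by_contra hlt
          have h3 := hlow x hxS y hy.1 (by omega)
          exact hy.2 ⟨by omega, h3⟩
      have e1 : pr S = x * pr (S.erase x) := by
        unfold pr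
        exact (mul_prod_erase S (fun p => p) hxS).symm
      rw [e1]
      set c := K * A.card with hcdef
      set P := pr (S.erase x) with hP
      have h2i : 1 ≤ 2 ^ i := Nat.one_le_two_pow
      calc x * P ≤ c * P * P := Nat.mul_le_mul_right _ hstep
        _ ≤ c * c ^ (2 ^ i - 1) * c ^ (2 ^ i - 1) := by gcongr
        _ = c ^ (1 + (2 ^ i - 1) + (2 ^ i - 1)) := by
            rw [pow_add, pow_add]; ring
        _ = c ^ (2 ^ (i + 1) - 1) := by
            have e2 : 2 ^ (i + 1) = 2 ^ i + 2 ^ i := by rw [pow_succ]; ring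
            rw [e2]
            congr 1
            omega
  exact key A.card A rfl Subset.rfl (fun _ _ y hy _ => hy)

theorem two_pow_ge (w : ℕ) : w * (w + 1) ≤ 2 ^ (w + 1) := by
  rcases Nat.lt_or_ge w 3 with h | h
  · interval_cases w <;> norm_num
  · induction w, h using Nat.le_induction with
    | base => norm_num
    | succ w hw ih =>
      rw [pow_succ]
      have : 3 ≤ w := hw
      nlinarith

/-- a solution `n` satisfies `n < D ^ D` for `D = 2 ^ ω(n)` -/
theorem leh_lt {n : ℕ} (h : Leh n) {D : ℕ} (hD : 2 ^ n.primeFactors.card ≤ D) : n < D ^ D := by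
  obtain ⟨h1, h2⟩ := idx_spec h
  have hA : ∀ p ∈ n.primeFactors, p.Prime ∧ 3 ≤ p := fun p hp => leh_prime h hp
  have hp := ph_primeFactors h
  have hr := pr_primeFactors h
  have e : idx n * ph n.primeFactors + 1 = pr n.primeFactors := by rw [hp, hr]; exact h1
  have h3 := pomerance hA h2 e
  rw [hr] at h3
  have h4 := ratio_card n.primeFactors (fun p hp => (hA p hp).2)
  have hpos := ph_pos (fun p hp => (hA p hp).2 : ∀ p ∈ n.primeFactors, 3 ≤ p)
  have h5 : 2 * idx n < n.primeFactors.card + 2 := by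
    have : 2 * idx n * ph n.primeFactors < (n.primeFactors.card + 2) * ph n.primeFactors := by
      calc 2 * idx n * ph n.primeFactors = 2 * (idx n * ph n.primeFactors) := by ring
        _ < 2 * pr n.primeFactors := by omega
        _ ≤ _ := h4
    exact lt_of_mul_lt_mul_right this (Nat.zero_le _)
  set w := n.primeFactors.card with hw
  have h6 : idx n * w ≤ 2 ^ w := by
    have h7 := two_pow_ge w
    rw [pow_succ] at h7
    have h8 : 2 * idx n * w ≤ (w + 1) * w := Nat.mul_le_mul_right _ (by omega)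
    nlinarith
  have hw0 : 0 < w := by omega
  have h2w : 2 ≤ 2 ^ w := by
    calc 2 = 2 ^ 1 := rfl
      _ ≤ 2 ^ w := Nat.pow_le_pow_right (by norm_num) hw0
  calc n ≤ (idx n * w) ^ (2 ^ w - 1) := h3
    _ ≤ (2 ^ w) ^ (2 ^ w - 1) := Nat.pow_le_pow_left h6 _
    _ < (2 ^ w) ^ (2 ^ w) := Nat.pow_lt_pow_right (by omega) (by omega)
    _ ≤ D ^ D := by
        calc (2 ^ w) ^ (2 ^ w) ≤ D ^ (2 ^ w) := Nat.pow_le_pow_left hD _
          _ ≤ D ^ D := Nat.pow_le_pow_right (by omega) hD

/-- `2 ^ ω ≤ φ` for sets of odd primes -/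
theorem two_pow_le_ph {C : Finset ℕ} (hC : ∀ p ∈ C, 3 ≤ p) : 2 ^ C.card ≤ ph C := by
  unfold ph
  rw [← prod_const]
  apply prod_le_prod'
  intro p hp
  have := hC p hp
  omega

/-- **the bound for both numbers** -/
theorem both_lt {M N : ℕ} (hM : Leh M) (hN : Leh N) (hlt : M < N) (hne : idx M ≠ idx N) :
    N < (2 ^ (dif M N).card * ((dif M N).card * ((dif M N).card + 2) * 2 ^ (dif M N).card) ^
        (2 ^ ((dif M N).card + 1))) ^
      (2 ^ (dif M N).card * ((dif M N).card * ((dif M N).card + 2) * 2 ^ (dif M N).card) ^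
        (2 ^ ((dif M N).card + 1))) := by
  apply leh_lt hN
  have h := pair_of hM hN hlt
  have h1 := (main_lt hM hN hlt).2.2.2 hne
  rw [← ph_inter hM hN] at h1
  have h2 := two_pow_le_ph h.C3
  have h3 : N.primeFactors.card ≤ (M.primeFactors ∩ N.primeFactors).card + (dif M N).card := by
    have u1 : N.primeFactors ⊆ (M.primeFactors ∩ N.primeFactors) ∪ dif M N := by
      intro p hp
      unfold dif
      simp only [mem_union, mem_inter, mem_symmDiff]
      tauto
    exact (card_le_card u1).trans (card_union_le _ _)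
  calc 2 ^ N.primeFactors.card ≤
      2 ^ ((M.primeFactors ∩ N.primeFactors).card + (dif M N).card) :=
        Nat.pow_le_pow_right (by norm_num) h3
    _ = 2 ^ (dif M N).card * 2 ^ (M.primeFactors ∩ N.primeFactors).card := by
        rw [pow_add, mul_comm]
    _ ≤ _ := Nat.mul_le_mul_left _ (h2.trans h1.le)

end Pool.Agent.U237.LehRep
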